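import Pool.Agent.H25Z.Split.Main

set_option autoImplicit false
set_option maxHeartbeats 400000

namespace Pool.Agent.H25Z.Split

open PowerSeries Finset

/-- The free algebra on two letters, to be given the `ℓ¹` norm. -/
def FA : Type := MonoidAlgebra ℂ (FreeMonoid Bool)

noncomputable instance instRingFA : Ring FA :=
  inferInstanceAs (Ring (MonoidAlgebra ℂ (FreeMonoid Bool)))

noncomputable instance instAlgebraFA : Algebra ℂ FA :=
  inferInstanceAs (Algebra ℂ (MonoidAlgebra ℂ (FreeMonoid Bool)))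

/-- The `ℓ¹` norm. -/
noncomputable def nrm (a : MonoidAlgebra ℂ (FreeMonoid Bool)) : ℝ := a.coeff.sum fun _ c => ‖c‖

lemma nrm_eq (a : MonoidAlgebra ℂ (FreeMonoid Bool)) {s : Finset (FreeMonoid Bool)}
    (h : a.coeff.support ⊆ s) : nrm a = ∑ w ∈ s, ‖a.coeff w‖ :=
  Finsupp.sum_of_support_subset _ h _ (by simp)

lemma nrm_add_le (a b : MonoidAlgebra ℂ (FreeMonoid Bool)) : nrm (a + b) ≤ nrm a + nrm b := by
  classical
  rw [nrm_eq (a + b) (s := a.coeff.support ∪ b.coeff.support)
      (by rw [MonoidAlgebra.coeff_add]; exact Finsupp.support_add),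
    nrm_eq a (s := a.coeff.support ∪ b.coeff.support) subset_union_left,
    nrm_eq b (s := a.coeff.support ∪ b.coeff.support) subset_union_right, ← Finset.sum_add_distrib]
  refine Finset.sum_le_sum fun w _ => ?_
  rw [MonoidAlgebra.coeff_add, Finsupp.add_apply]
  exact norm_add_le _ _

lemma nrm_zero : nrm 0 = 0 := by simp [nrm]

lemma nrm_smul (c : ℂ) (a : MonoidAlgebra ℂ (FreeMonoid Bool)) : nrm (c • a) = ‖c‖ * nrm a := by
  rw [nrm_eq (c • a) (s := a.coeff.support)
      (by rw [MonoidAlgebra.coeff_smul]; exact Finsupp.support_smul),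
    nrm_eq a subset_rfl, Finset.mul_sum]
  refine Finset.sum_congr rfl fun w _ => ?_
  rw [MonoidAlgebra.coeff_smul_apply, norm_smul]

lemma nrm_neg (a : MonoidAlgebra ℂ (FreeMonoid Bool)) : nrm (-a) = nrm a := by
  rw [← neg_one_smul ℂ a, nrm_smul]
  simp

lemma norm_coeff_le (a : MonoidAlgebra ℂ (FreeMonoid Bool)) (w : FreeMonoid Bool) :
    ‖a.coeff w‖ ≤ nrm a := by
  classical
  rw [nrm_eq a (s := insert w a.coeff.support) (subset_insert _ _)]
  exact Finset.single_le_sum (f := fun w => ‖a.coeff w‖) (fun _ _ => norm_nonneg _)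
    (mem_insert_self _ _)

lemma nrm_single (w : FreeMonoid Bool) (c : ℂ) : nrm (MonoidAlgebra.single w c) = ‖c‖ := by
  rw [nrm, MonoidAlgebra.coeff_single, Finsupp.sum_single_index (by simp)]

lemma nrm_sum_le {ι : Type*} (s : Finset ι) (f : ι → MonoidAlgebra ℂ (FreeMonoid Bool)) :
    nrm (∑ i ∈ s, f i) ≤ ∑ i ∈ s, nrm (f i) :=
  Finset.le_sum_of_subadditive nrm nrm_zero.le nrm_add_le s f

lemma nrm_mul_le (a b : MonoidAlgebra ℂ (FreeMonoid Bool)) : nrm (a * b) ≤ nrm a * nrm b := by
  rw [MonoidAlgebra.mul_def, nrm_eq a subset_rfl, nrm_eq b subset_rfl, Finset.sum_mul_sum,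
    Finsupp.sum]
  refine (nrm_sum_le _ _).trans (Finset.sum_le_sum fun u _ => ?_)
  rw [Finsupp.sum]
  refine (nrm_sum_le _ _).trans (Finset.sum_le_sum fun v _ => ?_)
  rw [nrm_single, norm_mul]

/-- The `ℓ¹` norm as a ring norm. -/
noncomputable def nrmRing : RingNorm FA where
  toFun := nrm
  map_zero' := nrm_zero
  add_le' := nrm_add_le
  neg' := nrm_neg
  mul_le' := nrm_mul_le
  eq_zero_of_map_eq_zero' := by
    intro (a : MonoidAlgebra ℂ (FreeMonoid Bool)) (ha : nrm a = 0)
    show a = (0 : MonoidAlgebra ℂ (FreeMonoid Bool))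
    ext w
    have := norm_coeff_le a w
    rw [ha] at this
    simpa using this

noncomputable instance instNormedRingFA : NormedRing FA := nrmRing.toNormedRing

noncomputable instance instNormedAlgebraFA : NormedAlgebra ℂ FA where
  norm_smul_le c a := (nrm_smul c a).le

instance instNormOneFA : NormOneClass FA :=
  ⟨by
    show nrm (MonoidAlgebra.single 1 1) = 1
    rw [nrm_single, norm_one]⟩

/-- The letters. -/
noncomputable def letter (b : Bool) : FA := MonoidAlgebra.single (FreeMonoid.of b) (1 : ℂ)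

lemma letter_bound (a b : ℂ) : ‖a‖ ≤ ‖a • letter false + b • letter true‖ ∧
    ‖b‖ ≤ ‖a • letter false + b • letter true‖ := by
  have h1 := norm_coeff_le (a • MonoidAlgebra.single (FreeMonoid.of false) (1 : ℂ) +
    b • MonoidAlgebra.single (FreeMonoid.of true) (1 : ℂ)) (FreeMonoid.of false)
  have h2 := norm_coeff_le (a • MonoidAlgebra.single (FreeMonoid.of false) (1 : ℂ) +
    b • MonoidAlgebra.single (FreeMonoid.of true) (1 : ℂ)) (FreeMonoid.of true)
  have hne : FreeMonoid.of false ≠ FreeMonoid.of true := fun h => by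
    simpa using FreeMonoid.of_injective h
  constructor
  · refine le_trans (le_of_eq ?_) h1
    simp [Finsupp.single_eq_of_ne hne]
  · refine le_trans (le_of_eq ?_) h2
    simp [Finsupp.single_eq_of_ne hne.symm]

section

variable {R : Type*} [Ring R] [Algebra ℂ R]

/-- The product attached to a list of coefficients, last pair first. -/
noncomputable def prodL (x y : R) : List (ℂ × ℂ) → R⟦X⟧
  | [] => 1
  | p :: l => prodL x y l * (ex (p.2 • x) * ex (p.1 • y))

lemma prodL_append (x y : R) (l l' : List (ℂ × ℂ)) :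
    prodL x y (l ++ l') = prodL x y l' * prodL x y l := by
  induction l with
  | nil => simp [prodL]
  | cons p l ih => rw [List.cons_append, prodL, prodL, ih, mul_assoc]

lemma exists_list {x y : R} {s : (R⟦X⟧)ˣ} (hs : s ∈ SS x y) :
    ∃ l : List (ℂ × ℂ), (∀ p ∈ l, 0 < p.1.re ∧ 0 < p.2.re) ∧ (s : R⟦X⟧) = prodL x y l := by
  induction hs using Submonoid.closure_induction with
  | mem g hg =>
    obtain ⟨a, b, ha, hb, rfl⟩ := hg
    refine ⟨[(b, a)], by simpa using ⟨hb, ha⟩, ?_⟩
    rw [prodL, prodL, one_mul]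
    rfl
  | one => exact ⟨[], by simp, rfl⟩
  | mul g h _ _ ihg ihh =>
    obtain ⟨l, hl, e⟩ := ihg
    obtain ⟨l', hl', e'⟩ := ihh
    refine ⟨l' ++ l, fun p hp => ?_, by rw [prodL_append, Units.val_mul, e, e']⟩
    rcases List.mem_append.1 hp with h | h
    · exact hl' p h
    · exact hl p h

variable {S : Type*} [Ring S] [Algebra ℂ S]

lemma map_ex (φ : R →ₐ[ℂ] S) (a : R) : PowerSeries.map (φ : R →+* S) (ex a) = ex (φ a) := by
  ext n
  rw [coeff_map, coeff_ex, coeff_ex]
  simp

lemma map_prodL (φ : R →ₐ[ℂ] S) (x y : R) (l : List (ℂ × ℂ)) :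
    PowerSeries.map (φ : R →+* S) (prodL x y l) = prodL (φ x) (φ y) l := by
  induction l with
  | nil => simp [prodL]
  | cons p l ih => rw [prodL, prodL, map_mul, map_mul, ih, map_ex, map_ex, map_smul, map_smul]

end

universe u

theorem universal (N : ℕ) : ∃ l : List (ℂ × ℂ), l ≠ [] ∧ (∀ p ∈ l, 0 < p.1.re ∧ 0 < p.2.re) ∧
    ∀ (R : Type u) [Ring R] [Algebra ℂ R] (x y : R), Van N (prodL x y l - ex (x + y)) := by
  obtain ⟨s, hs, hv⟩ := exists_method letter_bound (N + 2)
  obtain ⟨l, hl, e⟩ := exists_list hs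
  rw [e] at hv
  refine ⟨l, ?_, hl, fun R _ _ x y => ?_⟩
  · rintro rfl
    have h1 := hv 1 (by omega)
    rw [map_sub, prodL, coeff_one_ex, coeff_one, if_neg one_ne_zero, zero_sub, neg_eq_zero] at h1
    have h2 := (letter_bound 1 1).1
    rw [one_smul, one_smul, h1, norm_zero, norm_one] at h2
    linarith
  · let φ : FA →ₐ[ℂ] R :=
      MonoidAlgebra.lift ℂ R (FreeMonoid Bool) (FreeMonoid.lift fun b => if b then y else x)
    have hx : φ (letter false) = x := by
      have := MonoidAlgebra.lift_single (R := ℂ) (FreeMonoid.lift fun b => if b then y else x)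
        (FreeMonoid.of false) (1 : ℂ)
      rw [one_smul, FreeMonoid.lift_eval_of] at this
      exact this
    have hy : φ (letter true) = y := by
      have := MonoidAlgebra.lift_single (R := ℂ) (FreeMonoid.lift fun b => if b then y else x)
        (FreeMonoid.of true) (1 : ℂ)
      rw [one_smul, FreeMonoid.lift_eval_of] at this
      exact this
    intro j hj
    have h1 := congrArg (φ : FA →+* R) (hv j (by omega))
    rw [← coeff_map, map_sub, map_prodL, map_ex, map_add, hx, hy, map_zero] at h1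
    exact h1

end Pool.Agent.H25Z.Split
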