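import Pool.Agent.H25Z.Split.Defs
import Pool.Agent.H25Z.Split.Free
import Pool.Agent.Helper540.Holo

set_option autoImplicit false
set_option maxHeartbeats 400000
set_option linter.unusedSectionVars false

namespace Pool.Agent.H25Z.Split

open Finset Filter Topology Metric Asymptotics

variable {E : Type} [NormedAddCommGroup E] [NormedSpace ℂ E] [FiniteDimensional ℂ E]

lemma contDiff_of_diff {f : E → E} (hf : Differentiable ℂ f) (n : ℕ) : ContDiff ℂ n f := by
  have : CompleteSpace E := FiniteDimensional.complete ℂ E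
  exact contDiffOn_univ.1
    (Pool.Agent.Helper540.contDiffOn_of_differentiableOn isOpen_univ hf.differentiableOn n)

lemma diff_fderiv {f : E → E} (hf : Differentiable ℂ f) : Differentiable ℂ (fderiv ℂ f) := by
  have h : ContDiff ℂ (1 : ℕ) (fderiv ℂ f) :=
    (contDiff_of_diff hf 2).fderiv_right (by norm_cast)
  exact h.differentiable (by norm_cast)

lemma exists_bound_ball {F : Type*} [NormedAddCommGroup F] {g : E → F} (hg : Continuous g) (x : E)
    (r : ℝ) : ∃ M : ℝ, 0 ≤ M ∧ ∀ z ∈ closedBall x r, ‖g z‖ ≤ M := by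
  have : ProperSpace E := FiniteDimensional.proper ℂ E
  obtain ⟨M, hM⟩ := (isCompact_closedBall x r).exists_bound_of_continuousOn hg.continuousOn
  exact ⟨max M 0, le_max_right _ _, fun z hz => (hM z hz).trans (le_max_left _ _)⟩

lemma exists_lip {f : E → E} (hf : Differentiable ℂ f) (x : E) (r : ℝ) :
    ∃ K : NNReal, LipschitzOnWith K f (closedBall x r) := by
  obtain ⟨M, hM0, hM⟩ := exists_bound_ball (diff_fderiv hf).continuous x r
  exact ⟨⟨M, hM0⟩, (convex_closedBall x r).lipschitzOnWith_of_nnnorm_fderiv_le (𝕜 := ℂ)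
    (fun z _ => hf z) (fun z hz => hM z hz)⟩

lemma lip_smul {f : E → E} {K : NNReal} {s : Set E} (h : LipschitzOnWith K f s) (τ : ℂ) :
    LipschitzOnWith (‖τ‖₊ * K) (fun z => τ • f z) s :=
  (lipschitzWith_smul τ).comp_lipschitzOnWith h

lemma IsFlow.unique {f : E → E} (hf : Differentiable ℂ f) {τ : ℂ} {x y y' : E}
    (h : IsFlow f τ x y) (h' : IsFlow f τ x y') : y = y' := by
  obtain ⟨γ, rfl, rfl, hγ⟩ := h
  obtain ⟨γ', h0, rfl, hγ'⟩ := h'
  have c1 : ContinuousOn γ (Set.Icc 0 1) := fun s hs => (hγ s hs).continuousWithinAt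
  have c2 : ContinuousOn γ' (Set.Icc 0 1) := fun s hs => (hγ' s hs).continuousWithinAt
  obtain ⟨M, hM⟩ := isCompact_Icc.exists_bound_of_continuousOn c1
  obtain ⟨M', hM'⟩ := isCompact_Icc.exists_bound_of_continuousOn c2
  obtain ⟨K, hK⟩ := exists_lip hf 0 (max M M')
  refine ODE_solution_unique_of_mem_Icc_right (v := fun _ z => τ • f z)
    (s := fun _ => closedBall 0 (max M M')) (fun _ _ => lip_smul hK τ) c1
    (fun s hs => (hγ s (Set.Ico_subset_Icc_self hs)).mono_of_mem_nhdsWithin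
      (Icc_mem_nhdsGE_of_mem hs))
    (fun s hs => mem_closedBall_zero_iff.2
      ((hM s (Set.Ico_subset_Icc_self hs)).trans (le_max_left _ _))) c2
    (fun s hs => (hγ' s (Set.Ico_subset_Icc_self hs)).mono_of_mem_nhdsWithin
      (Icc_mem_nhdsGE_of_mem hs))
    (fun s hs => mem_closedBall_zero_iff.2
      ((hM' s (Set.Ico_subset_Icc_self hs)).trans (le_max_right _ _))) h0.symm
    (Set.right_mem_Icc.2 zero_le_one)

lemma IsSplit.unique {f₀ f₁ : E → E} (h₀ : Differentiable ℂ f₀) (h₁ : Differentiable ℂ f₁) {T : ℝ}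
    (l : List (ℂ × ℂ)) {x z z' : E} (h : IsSplit f₀ f₁ T l x z) (h' : IsSplit f₀ f₁ T l x z') :
    z = z' := by
  induction l generalizing z z' with
  | nil => exact Eq.trans h (Eq.symm h')
  | cons p l ih =>
    obtain ⟨u, v, a1, a2, a3⟩ := h
    obtain ⟨u', v', b1, b2, b3⟩ := h'
    obtain rfl := ih a1 b1
    obtain rfl := a2.unique h₁ b2
    exact a3.unique h₀ b3

lemma exists_flow {f : E → E} (hf : Differentiable ℂ f) (x₀ : E) :
    ∃ ε : ℝ, 0 < ε ∧ ∀ τ : ℂ, ‖τ‖ ≤ ε → ∀ x ∈ closedBall x₀ 1, ∃ γ : ℝ → E, γ 0 = x ∧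
      (∀ s, γ s ∈ closedBall x₀ 2) ∧
      ∀ s ∈ Set.Icc (0 : ℝ) 1, HasDerivWithinAt γ (τ • f (γ s)) (Set.Icc (0 : ℝ) 1) s := by
  have : CompleteSpace E := FiniteDimensional.complete ℂ E
  obtain ⟨K, hK⟩ := exists_lip hf x₀ 2
  obtain ⟨M, hM0, hM⟩ := exists_bound_ball hf.continuous x₀ 2
  refine ⟨1 / (M + 1), by positivity, fun τ hτ x hx => ?_⟩
  have hP : IsPicardLindelof (fun _ z => τ • f z) (tmin := 0) (tmax := 1)
      ⟨0, Set.left_mem_Icc.2 zero_le_one⟩ x₀ 2 1 1 (‖τ‖₊ * K) := by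
    refine IsPicardLindelof.of_time_independent (fun z hz => ?_) (lip_smul hK τ) (by norm_num)
    rw [norm_smul, NNReal.coe_one]
    calc ‖τ‖ * ‖f z‖ ≤ 1 / (M + 1) * M := by
          gcongr
          exact hM z hz
      _ ≤ 1 := by
          rw [one_div, inv_mul_le_iff₀ (by positivity)]
          linarith
  obtain ⟨α, hα⟩ := ODE.FunSpace.exists_isFixedPt_next hP hx
  refine ⟨α.compProj, ?_, fun s => α.compProj_mem_closedBall hP.mul_max_le, fun t ht ↦ ?_⟩
  · have := ODE.FunSpace.compProj_val (α := α) (t := ⟨0, Set.left_mem_Icc.2 zero_le_one⟩)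
    rw [← hα, ODE.FunSpace.next_apply₀] at this
    rw [← hα]
    exact this
  · apply ODE.hasDerivWithinAt_picard_Icc (Set.left_mem_Icc.2 zero_le_one) hP.continuousOn_uncurry
      α.continuous_compProj.continuousOn (fun _ ht' ↦ α.compProj_mem_closedBall hP.mul_max_le)
      x ht |>.congr_of_mem _ ht
    intro t' ht'
    nth_rw 1 [← hα]
    rw [ODE.FunSpace.compProj_of_mem ht', ODE.FunSpace.next_apply]

variable (E) in
/-- Entire maps. -/
def Hol : Submodule ℂ (E → E) where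
  carrier := {g | Differentiable ℂ g}
  zero_mem' := differentiable_const 0
  add_mem' := fun ha hb => ha.add hb
  smul_mem' := fun c _ hg => hg.const_smul c

lemma Hol.diff (g : Hol E) : Differentiable ℂ (g : E → E) := g.2

/-- The Lie derivative along `f`. -/
noncomputable def lieD (f : Hol E) : Module.End ℂ (Hol E) where
  toFun g := ⟨fun x => fderiv ℂ (g : E → E) x ((f : E → E) x),
    (diff_fderiv (Hol.diff g)).clm_apply (Hol.diff f)⟩
  map_add' g h := by
    ext x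
    simp only [Submodule.coe_add, Pi.add_apply]
    rw [fderiv_add (Hol.diff g x) (Hol.diff h x)]
    rfl
  map_smul' c g := by
    ext x
    simp only [Submodule.coe_smul, Pi.smul_apply, RingHom.id_apply]
    rw [fderiv_const_smul (Hol.diff g x)]
    rfl

lemma lieD_apply (f g : Hol E) (x : E) :
    (lieD f g : E → E) x = fderiv ℂ (g : E → E) x ((f : E → E) x) := rfl

lemma lieD_add (f f' : Hol E) : lieD (f + f') = lieD f + lieD f' := by
  ext g x
  simp [lieD_apply]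

lemma taylor (f : Hol E) {τ : ℂ} {γ : ℝ → E} {K : Set E} (hK : ∀ s, γ s ∈ K)
    (hγ : ∀ s ∈ Set.Icc (0 : ℝ) 1,
      HasDerivWithinAt γ (τ • (f : E → E) (γ s)) (Set.Icc (0 : ℝ) 1) s)
    (n : ℕ) (g : Hol E) {M : ℝ} (hM : ∀ z ∈ K, ‖((lieD f ^ n) g : E → E) z‖ ≤ M) :
    ∀ s ∈ Set.Icc (0 : ℝ) 1, ‖(g : E → E) (γ s) - ∑ j ∈ range n,
      (((j.factorial : ℂ)⁻¹) * (s * τ) ^ j) • ((lieD f ^ j) g : E → E) (γ 0)‖ ≤ ‖τ‖ ^ n * M := by
  induction n generalizing g with
  | zero =>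
    intro s _
    simpa using hM _ (hK s)
  | succ n ih =>
    have ih' := ih (lieD f g) (by
      intro z hz
      have := hM z hz
      rwa [pow_succ, Module.End.mul_apply] at this)
    have hd : ∀ s ∈ Set.Icc (0 : ℝ) 1, HasDerivWithinAt
        (fun s : ℝ => (g : E → E) (γ s) - ∑ j ∈ range (n + 1),
          (((j.factorial : ℂ)⁻¹) * (s * τ) ^ j) • ((lieD f ^ j) g : E → E) (γ 0))
        (τ • ((lieD f g : E → E) (γ s) - ∑ j ∈ range n,
          (((j.factorial : ℂ)⁻¹) * (s * τ) ^ j) • ((lieD f ^ j) (lieD f g) : E → E) (γ 0)))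
        (Set.Icc (0 : ℝ) 1) s := by
      intro s hs
      have h1 := ((Hol.diff g (γ s)).hasFDerivAt.restrictScalars ℝ).comp_hasDerivWithinAt s
        (hγ s hs)
      have h2 : ∀ j ∈ range n, HasDerivWithinAt (fun s : ℝ =>
          ((((j + 1).factorial : ℂ)⁻¹) * (s * τ) ^ (j + 1)) •
            ((lieD f ^ (j + 1)) g : E → E) (γ 0))
          (τ • (((j.factorial : ℂ)⁻¹) * (s * τ) ^ j) • ((lieD f ^ j) (lieD f g) : E → E) (γ 0))
          (Set.Icc (0 : ℝ) 1) s := by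
        intro j _
        have h3 : HasDerivAt (fun w : ℂ => (((j + 1).factorial : ℂ)⁻¹) * (w * τ) ^ (j + 1))
            (τ * (((j.factorial : ℂ)⁻¹) * (s * τ) ^ j)) (s : ℂ) := by
          have h4 := (((hasDerivAt_id (s : ℂ)).mul_const τ).pow (j + 1)).const_mul
            (((j + 1).factorial : ℂ)⁻¹)
          refine HasDerivAt.congr_deriv h4 ?_
          have h5 : (j.factorial : ℂ) ≠ 0 := by exact_mod_cast j.factorial_ne_zero
          have h6 : ((j + 1 : ℕ) : ℂ) ≠ 0 := by exact_mod_cast j.succ_ne_zero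
          rw [Nat.factorial_succ, Nat.cast_mul, Nat.add_sub_cancel]
          simp only [id]
          field_simp
        have h7 := (h3.comp_ofReal.smul_const
          (((lieD f ^ (j + 1)) g : E → E) (γ 0))).hasDerivWithinAt (s := Set.Icc (0 : ℝ) 1)
        rw [smul_smul, pow_succ (lieD f), Module.End.mul_apply]
        rw [pow_succ (lieD f), Module.End.mul_apply] at h7
        exact h7
      have h8 := h1.fun_sub ((HasDerivWithinAt.fun_sum h2).add_const
        ((((Nat.factorial 0 : ℂ)⁻¹) * 1) • ((lieD f ^ 0) g : E → E) (γ 0)))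
      convert h8 using 1
      · ext t
        rw [Finset.sum_range_succ', pow_zero]
        rfl
      · rw [smul_sub, Finset.smul_sum, lieD_apply]
        simp
    intro s hs
    have h9 := norm_image_sub_le_of_norm_deriv_le_segment' hd (C := ‖τ‖ ^ (n + 1) * M) (by
      intro t ht
      rw [norm_smul, pow_succ', mul_assoc]
      exact mul_le_mul_of_nonneg_left (ih' t (Set.Ico_subset_Icc_self ht)) (norm_nonneg _)) s hs
    have h10 : (g : E → E) (γ 0) - ∑ j ∈ range (n + 1),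
        (((j.factorial : ℂ)⁻¹) * (((0 : ℝ) : ℂ) * τ) ^ j) • ((lieD f ^ j) g : E → E) (γ 0) = 0 := by
      rw [Finset.sum_range_succ']
      simp
    rw [h10, sub_zero, sub_zero] at h9
    have hM0 : 0 ≤ M := (norm_nonneg _).trans (hM _ (hK 0))
    have : 0 ≤ ‖τ‖ ^ (n + 1) * M := by positivity
    nlinarith [hs.2]

/-- Asymptotic expansion of a family of points. -/
def Expn (x₀ : E) (u : ℝ → E) (P : PowerSeries (Module.End ℂ (Hol E))) : Prop :=
  Tendsto u (𝓝[>] 0) (𝓝 x₀) ∧ ∀ (n : ℕ) (g : Hol E),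
    (fun T : ℝ => (g : E → E) (u T) - ∑ i ∈ range n,
      ((T : ℂ) ^ i) • (PowerSeries.coeff i P g : E → E) x₀) =O[𝓝[>] 0] fun T : ℝ => T ^ n

lemma expn_const (x₀ : E) : Expn x₀ (fun _ => x₀) 1 := by
  refine ⟨tendsto_const_nhds, fun n g => ?_⟩
  cases n with
  | zero =>
    simp only [range_zero, sum_empty, sub_zero, pow_zero]
    exact isBigO_const_const _ one_ne_zero _
  | succ n =>
    have : (fun T : ℝ => (g : E → E) x₀ - ∑ i ∈ range (n + 1),
        ((T : ℂ) ^ i) • (PowerSeries.coeff i (1 : PowerSeries (Module.End ℂ (Hol E))) g : E → E) x₀)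
        = fun _ => 0 := by
      ext T
      rw [Finset.sum_range_succ']
      simp [PowerSeries.coeff_one]
    rw [this]
    exact isBigO_zero _ _

lemma flow_step (f : Hol E) (c : ℂ) {x₀ : E} {u : ℝ → E} (hu : Tendsto u (𝓝[>] 0) (𝓝 x₀)) :
    ∃ v : ℝ → E, (∀ᶠ T : ℝ in 𝓝[>] 0, IsFlow (f : E → E) (c * T) (u T) (v T)) ∧
      ∀ (n : ℕ) (g : Hol E), (fun T : ℝ => (g : E → E) (v T) - ∑ j ∈ range n,
        (((j.factorial : ℂ)⁻¹) * (c * T) ^ j) • ((lieD f ^ j) g : E → E) (u T))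
          =O[𝓝[>] 0] fun T : ℝ => T ^ n := by
  classical
  obtain ⟨ε, hε, h⟩ := exists_flow (Hol.diff f) x₀
  choose! γ h0 hK hd using h
  have e1 : ∀ᶠ T : ℝ in 𝓝[>] 0, ‖c * T‖ ≤ ε := by
    have h1 : Continuous fun T : ℝ => ‖c * T‖ := by fun_prop
    have h2 := h1.tendsto 0
    simp only [Complex.ofReal_zero, mul_zero, norm_zero] at h2
    exact (h2.eventually (ge_mem_nhds hε)).filter_mono nhdsWithin_le_nhds
  have e2 : ∀ᶠ T : ℝ in 𝓝[>] 0, u T ∈ closedBall x₀ 1 :=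
    hu.eventually (closedBall_mem_nhds x₀ one_pos)
  refine ⟨fun T => γ (c * T) (u T) 1, ?_, fun n g => ?_⟩
  · filter_upwards [e1, e2] with T h1 h2
    exact ⟨γ (c * T) (u T), h0 _ h1 _ h2, rfl, hd _ h1 _ h2⟩
  · obtain ⟨M, -, hM⟩ := exists_bound_ball (Hol.diff ((lieD f ^ n) g)).continuous x₀ 2
    refine IsBigO.of_bound (‖c‖ ^ n * M) ?_
    filter_upwards [e1, e2] with T h1 h2
    have := taylor f (hK _ h1 _ h2) (hd _ h1 _ h2) n g hM 1 (Set.right_mem_Icc.2 zero_le_one)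
    rw [h0 _ h1 _ h2, Complex.ofReal_one, one_mul] at this
    refine this.trans (le_of_eq ?_)
    rw [norm_mul, mul_pow, norm_pow, Complex.norm_real]
    ring

/-- The identity map. -/
def idHol : Hol E := ⟨id, differentiable_id⟩

lemma expn_step (f : Hol E) (c : ℂ) {x₀ : E} {u : ℝ → E} {P : PowerSeries (Module.End ℂ (Hol E))}
    (hu : Expn x₀ u P) :
    ∃ v : ℝ → E, (∀ᶠ T : ℝ in 𝓝[>] 0, IsFlow (f : E → E) (c * T) (u T) (v T)) ∧
      Expn x₀ v (P * ex (c • lieD f)) := by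
  obtain ⟨v, hv, hO⟩ := flow_step f c hu.1
  refine ⟨v, hv, ?_, fun n g => ?_⟩
  · have h1 := hO 1 idHol
    have h2 : Tendsto (fun T : ℝ => T ^ 1) (𝓝[>] 0) (𝓝 0) := by
      simp only [pow_one]
      exact tendsto_id.mono_left nhdsWithin_le_nhds
    have h3 := (h1.trans_tendsto h2).add hu.1
    simpa [idHol] using h3
  · have h1 := hO n g
    have h2 : ∀ j ∈ range n, (fun T : ℝ => (((j.factorial : ℂ)⁻¹) * (c * T) ^ j) •
        (((lieD f ^ j) g : E → E) (u T) - ∑ i ∈ range (n - j),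
          ((T : ℂ) ^ i) • (PowerSeries.coeff i P ((lieD f ^ j) g) : E → E) x₀))
          =O[𝓝[>] 0] fun T : ℝ => T ^ n := by
      intro j hj
      have h3 : (fun T : ℝ => (((j.factorial : ℂ)⁻¹) * (c * T) ^ j)) =O[𝓝[>] 0]
          fun T : ℝ => T ^ j := by
        refine IsBigO.of_bound (‖((j.factorial : ℂ)⁻¹)‖ * ‖c‖ ^ j) (Eventually.of_forall fun T => ?_)
        rw [norm_mul, norm_pow, norm_mul, mul_pow, norm_pow, Complex.norm_real, mul_assoc]
      have h4 := h3.smul (hu.2 (n - j) ((lieD f ^ j) g))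
      refine h4.congr_right fun T => ?_
      rw [smul_eq_mul, ← pow_add, Nat.add_sub_cancel' (mem_range.1 hj).le]
    refine (h1.add (IsBigO.sum h2)).congr_left fun T => ?_
    simp only [Finset.sum_apply, smul_sub, Finset.sum_sub_distrib]
    rw [sub_add_sub_cancel]
    congr 1
    simp only [Finset.smul_sum]
    rw [← Finset.sum_range_diag_flip n (fun j i => (((j.factorial : ℂ)⁻¹) * (c * T) ^ j) •
      ((T : ℂ) ^ i) • (PowerSeries.coeff i P ((lieD f ^ j) g) : E → E) x₀)]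
    refine Finset.sum_congr rfl fun m _ => ?_
    rw [← Finset.Nat.sum_antidiagonal_eq_sum_range_succ (fun j i =>
      (((j.factorial : ℂ)⁻¹) * (c * T) ^ j) •
      ((T : ℂ) ^ i) • (PowerSeries.coeff i P ((lieD f ^ j) g) : E → E) x₀) m,
      PowerSeries.coeff_mul, ← Finset.Nat.sum_antidiagonal_swap, LinearMap.sum_apply,
      Submodule.coe_sum, Finset.sum_apply, Finset.smul_sum]
    refine Finset.sum_congr rfl fun p hp => ?_
    have hp' : p.1 + p.2 = m := mem_antidiagonal.1 hp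
    have hc := coeff_ex (c • lieD f) p.2
    erw [hc]
    rw [smul_pow, Module.End.mul_apply, LinearMap.smul_apply, LinearMap.smul_apply,
      map_smul, map_smul, Submodule.coe_smul, Submodule.coe_smul, Pi.smul_apply, Pi.smul_apply,
      smul_smul, smul_smul, smul_smul, ← hp', Prod.fst_swap, Prod.snd_swap]
    congr 1
    ring

lemma expn_split (f₀ f₁ : Hol E) (x₀ : E) (l : List (ℂ × ℂ)) :
    ∃ z : ℝ → E, (∀ᶠ T : ℝ in 𝓝[>] 0, IsSplit (f₀ : E → E) f₁ T l x₀ (z T)) ∧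
      Expn x₀ z (prodL (lieD f₁) (lieD f₀) l) := by
  induction l with
  | nil => exact ⟨fun _ => x₀, Eventually.of_forall fun _ => rfl, expn_const x₀⟩
  | cons p l ih =>
    obtain ⟨u, hu, eu⟩ := ih
    obtain ⟨v, hv, ev⟩ := expn_step f₁ p.2 eu
    obtain ⟨z, hz, ez⟩ := expn_step f₀ p.1 ev
    refine ⟨z, ?_, by rw [prodL, ← mul_assoc]; exact ez⟩
    filter_upwards [hu, hv, hz] with T h1 h2 h3
    exact ⟨u T, v T, h1, h2, h3⟩

theorem order_of_van {N : ℕ} {l : List (ℂ × ℂ)}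
    (h : ∀ x y : Module.End ℂ (Hol E), Van (N + 1) (prodL x y l - ex (x + y)))
    {f₀ f₁ : E → E} (h₀ : Differentiable ℂ f₀) (h₁ : Differentiable ℂ f₁) (x₀ : E) :
    ∃ C T₀ : ℝ, 0 < T₀ ∧ ∀ T : ℝ, 0 < T → T < T₀ → ∃ y z : E,
      (∀ y', IsFlow (f₀ + f₁) T x₀ y' ↔ y' = y) ∧
      (∀ z', IsSplit f₀ f₁ T l x₀ z' ↔ z' = z) ∧ ‖y - z‖ ≤ C * T ^ (N + 1) := by
  let F₀ : Hol E := ⟨f₀, h₀⟩
  let F₁ : Hol E := ⟨f₁, h₁⟩
  obtain ⟨z, hz, ez⟩ := expn_split F₀ F₁ x₀ l
  obtain ⟨y, hy, ey⟩ := expn_step (F₀ + F₁) 1 (expn_const x₀)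
  rw [one_mul, one_smul, lieD_add, add_comm] at ey
  have h1 := (ey.2 (N + 1) idHol).sub (ez.2 (N + 1) idHol)
  have h2 : (fun T => y T - z T) =O[𝓝[>] 0] fun T : ℝ => T ^ (N + 1) := by
    refine h1.congr_left fun T => ?_
    have : ∑ i ∈ range (N + 1), ((T : ℂ) ^ i) •
        (PowerSeries.coeff i (ex (lieD F₁ + lieD F₀)) idHol : E → E) x₀ =
        ∑ i ∈ range (N + 1), ((T : ℂ) ^ i) •
        (PowerSeries.coeff i (prodL (lieD F₁) (lieD F₀) l) idHol : E → E) x₀ := by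
      refine Finset.sum_congr rfl fun i hi => ?_
      have := h (lieD F₁) (lieD F₀) i (mem_range.1 hi)
      rw [map_sub, sub_eq_zero] at this
      rw [this]
    rw [this, sub_sub_sub_cancel_right]
    rfl
  obtain ⟨C, hC⟩ := h2.bound
  obtain ⟨T₀, hT₀, hT⟩ := (mem_nhdsGT_iff_exists_Ioo_subset).1 (hz.and (hy.and hC))
  refine ⟨C, T₀, hT₀, fun T h0 h1 => ?_⟩
  obtain ⟨a1, a2, a3⟩ := hT ⟨h0, h1⟩
  rw [one_mul] at a2
  refine ⟨y T, z T, fun y' => ⟨fun hy' => hy'.unique (h₀.add h₁) a2, fun hy' => hy' ▸ a2⟩,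
    fun z' => ⟨fun hz' => IsSplit.unique h₀ h₁ l hz' a1, fun hz' => hz' ▸ a1⟩, ?_⟩
  rwa [Real.norm_eq_abs, abs_of_pos (pow_pos h0 _)] at a3

theorem all_orders (N : ℕ) : ∃ l : List (ℂ × ℂ), l ≠ [] ∧ (∀ p ∈ l, 0 < p.1.re ∧ 0 < p.2.re) ∧
    IsSplittingMethod N l := by
  obtain ⟨l, h1, h2, h3⟩ := universal.{0} (N + 1)
  exact ⟨l, h1, h2, fun d _ f₀ f₁ h₀ h₁ x₀ => order_of_van (h3 _) h₀ h₁ x₀⟩

end Pool.Agent.H25Z.Split
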