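import Mathlib

set_option autoImplicit false
set_option maxHeartbeats 400000

namespace Pool.Agent.H25Z.Split

open Finset

/-- A set that follows every line up to a bounded distance positively spans every ball with
small coefficients and a fixed number of vectors. -/
lemma lin_cover {W : Type*} [NormedAddCommGroup W] [NormedSpace ℝ W] [FiniteDimensional ℝ W]
    (S : Set W) (h : ∀ v : W, ∃ K : ℝ, ∀ t : ℝ, ∃ z ∈ S, ‖z - t • v‖ ≤ K) :
    ∃ r : ℕ, ∀ R0 a0 : ℝ, 0 < a0 → ∃ Ep Em : Fin r → W, (∀ i, Ep i ∈ S) ∧ (∀ i, Em i ∈ S) ∧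
      ∀ z : W, ‖z‖ ≤ R0 → ∃ c : Fin r → ℝ, (∀ i, 0 < c i ∧ c i ≤ 2 * a0) ∧
        ∑ i, c i • Ep i + ∑ i, a0 • Em i = z := by
  set r := Module.finrank ℝ W
  set b := Module.finBasis ℝ W
  refine ⟨r, fun R0 a0 ha0 => ?_⟩
  set M0 : ℝ := ‖(b.equivFunL : W →L[ℝ] (Fin r → ℝ))‖ with hM0
  have hM0n : 0 ≤ M0 := norm_nonneg _
  have hco : ∀ (y : W) (i : Fin r), |b.repr y i| ≤ M0 * ‖y‖ := by
    intro y i
    have h1 := (b.equivFunL : W →L[ℝ] (Fin r → ℝ)).le_opNorm y
    have h2 := norm_le_pi_norm ((b.equivFunL : W →L[ℝ] (Fin r → ℝ)) y) i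
    have h3 : ((b.equivFunL : W →L[ℝ] (Fin r → ℝ)) y) i = b.repr y i := by simp
    rw [h3, Real.norm_eq_abs] at h2
    exact h2.trans h1
  choose K hK using fun i => h (b i)
  set K0 : ℝ := ∑ i, |K i| with hK0
  have hK0n : 0 ≤ K0 := Finset.sum_nonneg fun i _ => abs_nonneg _
  have hKi : ∀ i, K i ≤ K0 := fun i =>
    (le_abs_self _).trans (Finset.single_le_sum (f := fun i => |K i|)
      (fun i _ => abs_nonneg _) (mem_univ i))
  set B0 : ℝ := |R0| + r * (a0 * (2 * K0)) with hB0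
  have hB0n : 0 ≤ B0 := by positivity
  set t : ℝ := 2 * (r * M0 * K0) + 2 * M0 * B0 / a0 + 1 with ht
  have ht1 : 0 ≤ 2 * (r * M0 * K0) := by positivity
  have ht2 : 0 ≤ 2 * M0 * B0 / a0 := by positivity
  have ht0 : 0 < t := by linarith
  choose Ep hEp hEp' using fun i => hK i t
  choose Em hEm hEm' using fun i => hK i (-t)
  refine ⟨Ep, Em, hEp, hEm, fun z hz => ?_⟩
  set A : W →ₗ[ℝ] W := ∑ i, (b.coord i).smulRight (t⁻¹ • Ep i) with hA
  have hAy : ∀ y, A y = ∑ i, b.repr y i • (t⁻¹ • Ep i) := by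
    intro y
    simp [hA, LinearMap.sum_apply]
  have hAe : ∀ y, ‖A y - y‖ ≤ ‖y‖ / 2 := by
    intro y
    have e : A y - y = ∑ i, b.repr y i • (t⁻¹ • (Ep i - t • b i)) := by
      rw [hAy]
      conv_lhs => rw [← b.sum_repr y]
      rw [b.sum_repr y]
      conv_lhs => enter [2]; rw [← b.sum_repr y]
      rw [← Finset.sum_sub_distrib]
      refine Finset.sum_congr rfl fun i _ => ?_
      rw [smul_sub, smul_sub, smul_smul t⁻¹ t, inv_mul_cancel₀ ht0.ne', one_smul]
    rw [e]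
    have h1 : ∀ i ∈ (univ : Finset (Fin r)),
        ‖b.repr y i • (t⁻¹ • (Ep i - t • b i))‖ ≤ M0 * ‖y‖ * (t⁻¹ * K0) := by
      intro i _
      rw [norm_smul, norm_smul, Real.norm_eq_abs, Real.norm_eq_abs, abs_of_pos (inv_pos.2 ht0)]
      gcongr
      · exact hco y i
      · exact (hEp' i).trans (hKi i)
    refine (norm_sum_le_of_le _ h1).trans ?_
    rw [Finset.sum_const, card_univ, Fintype.card_fin, nsmul_eq_mul]
    have h2 : (r : ℝ) * (M0 * ‖y‖ * (t⁻¹ * K0)) = ‖y‖ * ((r * M0 * K0) / t) := by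
      field_simp
    rw [h2]
    have h3 : (r * M0 * K0) / t ≤ 1 / 2 := by
      rw [div_le_div_iff₀ ht0 (by norm_num)]
      linarith
    nlinarith [norm_nonneg y]
  have hAn : ∀ y, ‖y‖ ≤ 2 * ‖A y‖ := by
    intro y
    have h1 := hAe y
    have h2 := norm_sub_norm_le y (A y)
    rw [norm_sub_rev] at h2
    linarith
  have hinj : Function.Injective A := by
    rw [injective_iff_map_eq_zero]
    intro y hy
    have := hAn y
    rw [hy, norm_zero, mul_zero] at this
    exact norm_le_zero_iff.1 this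
  obtain ⟨y, hy⟩ := LinearMap.surjective_of_injective hinj (z - ∑ i, a0 • (Ep i + Em i))
  have hyn : ‖y‖ ≤ 2 * B0 := by
    refine (hAn y).trans ?_
    rw [hy]
    gcongr
    refine (norm_sub_le _ _).trans ?_
    have h1 : ∀ i ∈ (univ : Finset (Fin r)), ‖a0 • (Ep i + Em i)‖ ≤ a0 * (2 * K0) := by
      intro i _
      rw [norm_smul, Real.norm_eq_abs, abs_of_pos ha0]
      gcongr
      have e : Ep i + Em i = (Ep i - t • b i) + (Em i - (-t) • b i) := by
        rw [neg_smul]; abel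
      rw [e]
      have := hEp' i
      have := hEm' i
      have := hKi i
      have := norm_add_le (Ep i - t • b i) (Em i - (-t) • b i)
      linarith
    have h2 := norm_sum_le_of_le _ h1
    rw [Finset.sum_const, card_univ, Fintype.card_fin, nsmul_eq_mul] at h2
    have := le_abs_self R0
    linarith
  refine ⟨fun i => a0 + b.repr y i * t⁻¹, fun i => ?_, ?_⟩
  · have h1 : |b.repr y i * t⁻¹| < a0 := by
      rw [abs_mul, abs_of_pos (inv_pos.2 ht0), ← div_eq_mul_inv, div_lt_iff₀ ht0]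
      have h2 : |b.repr y i| ≤ M0 * (2 * B0) := (hco y i).trans (by gcongr)
      have h3 : a0 * t = a0 * (2 * (r * M0 * K0)) + 2 * M0 * B0 + a0 := by
        rw [ht]; field_simp
      have h4 : 0 ≤ a0 * (2 * (r * M0 * K0)) := by positivity
      linarith
    rw [abs_lt] at h1
    constructor <;> linarith [h1.1, h1.2]
  · have e : ∑ i, (a0 + b.repr y i * t⁻¹) • Ep i = ∑ i, a0 • Ep i + A y := by
      rw [hAy, ← Finset.sum_add_distrib]
      refine Finset.sum_congr rfl fun i _ => ?_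
      rw [add_smul, smul_smul]
    rw [e, hy]
    simp only [smul_add, Finset.sum_add_distrib]
    abel

lemma exists_root {c g : ℝ} {M : ℕ} (hM : M ≠ 0) (hc : 0 < c) (hg : 0 < g) (h : c ≤ g ^ M) :
    ∃ γ : ℝ, 0 < γ ∧ γ ≤ g ∧ γ ^ M = c := by
  refine ⟨c ^ ((M : ℝ)⁻¹), Real.rpow_pos_of_pos hc _, ?_, Real.rpow_inv_natCast_pow hc.le hM⟩
  rw [← pow_le_pow_iff_left₀ (Real.rpow_pos_of_pos hc _).le hg.le hM,
    Real.rpow_inv_natCast_pow hc.le hM]
  exact h

end Pool.Agent.H25Z.Split
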