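import Mathlib

set_option autoImplicit false

namespace Pool.Agent.H25Z.Split

section

variable {E : Type} [NormedAddCommGroup E] [NormedSpace ℂ E]

/-- `y = e^{τ f} x`: there is a solution of `γ'(s) = τ f(γ(s))` on `[0, 1]` with `γ(0) = x` and
`γ(1) = y`. -/
def IsFlow (f : E → E) (τ : ℂ) (x y : E) : Prop :=
  ∃ γ : ℝ → E, γ 0 = x ∧ γ 1 = y ∧
    ∀ s ∈ Set.Icc (0 : ℝ) 1, HasDerivWithinAt γ (τ • f (γ s)) (Set.Icc (0 : ℝ) 1) s

/-- For the list `[(α₁, β₁), …, (α_k, β_k)]`: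
`z = e^{α₁ T f₀} e^{β₁ T f₁} ⋯ e^{α_k T f₀} e^{β_k T f₁} x` (the rightmost map acts first). -/
def IsSplit (f₀ f₁ : E → E) (T : ℝ) : List (ℂ × ℂ) → E → E → Prop
  | [], x, z => z = x
  | p :: l, x, z =>
      ∃ u v : E, IsSplit f₀ f₁ T l x u ∧ IsFlow f₁ (p.2 * T) u v ∧ IsFlow f₀ (p.1 * T) v z

end

/-- The list of coefficient pairs `l` is a splitting method of order at least `N`: for all
holomorphic vector fields `f₀, f₁` on `ℂ^d` and every `x₀`, for all small `T > 0` the point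
`y = e^{T (f₀ + f₁)} x₀` and the composed point `z` exist, are unique, and
`|y - z| ≤ C T^{N+1}`. -/
def IsSplittingMethod (N : ℕ) (l : List (ℂ × ℂ)) : Prop :=
  ∀ d : ℕ, 1 ≤ d → ∀ f₀ f₁ : EuclideanSpace ℂ (Fin d) → EuclideanSpace ℂ (Fin d),
    Differentiable ℂ f₀ → Differentiable ℂ f₁ → ∀ x₀ : EuclideanSpace ℂ (Fin d),
      ∃ C T₀ : ℝ, 0 < T₀ ∧ ∀ T : ℝ, 0 < T → T < T₀ →
        ∃ y z : EuclideanSpace ℂ (Fin d),
          (∀ y', IsFlow (f₀ + f₁) T x₀ y' ↔ y' = y) ∧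
          (∀ z', IsSplit f₀ f₁ T l x₀ z' ↔ z' = z) ∧
          ‖y - z‖ ≤ C * T ^ (N + 1)

end Pool.Agent.H25Z.Split
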