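import Pool.Agent.H25Z.Split.PS

set_option autoImplicit false
set_option maxHeartbeats 400000

namespace Pool.Agent.H25Z.Split

open PowerSeries Finset

variable {R : Type*} [Ring R] [Algebra ℂ R]

/-- The commutator as a bilinear map. -/
noncomputable def brk : R →ₗ[ℂ] R →ₗ[ℂ] R := LinearMap.mul ℂ R - (LinearMap.mul ℂ R).flip

lemma brk_apply (a b : R) : brk a b = a * b - b * a := by
  simp [brk]

/-- Homogeneous Lie elements of degree `n + 1`. -/
noncomputable def LieDeg (x y : R) : ℕ → Submodule ℂ R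
  | 0 => Submodule.span ℂ {x, y}
  | n + 1 => Submodule.map₂ brk (LieDeg x y n) (Submodule.span ℂ {x, y})

variable (x y : R)

lemma LieDeg_fg (n : ℕ) : (LieDeg x y n).FG := by
  have h0 : (Submodule.span ℂ ({x, y} : Set R)).FG :=
    Submodule.fg_span (Set.toFinite _)
  induction n with
  | zero => exact h0
  | succ n ih => exact ih.map₂ _ h0

variable {x y}

lemma brk_mem {n : ℕ} {w a : R} (hw : w ∈ LieDeg x y n) (ha : a ∈ LieDeg x y 0) :
    w * a - a * w ∈ LieDeg x y (n + 1) := by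
  rw [← brk_apply]
  exact Submodule.apply_mem_map₂ _ hw ha

lemma comb_mem (a b : ℂ) : a • x + b • y ∈ LieDeg x y 0 :=
  Submodule.mem_span_pair.2 ⟨a, b, rfl⟩

lemma x_mem : x ∈ LieDeg x y 0 := Submodule.subset_span (by simp)

lemma y_mem : y ∈ LieDeg x y 0 := Submodule.subset_span (by simp)

variable (x y) in
/-- Lie series starting in degree `m + 1`. -/
def LL (m : ℕ) (u : R⟦X⟧) : Prop := ∀ j, coeff j u ∈ LieDeg x y (m + j)

lemma LL.add {m : ℕ} {u v : R⟦X⟧} (hu : LL x y m u) (hv : LL x y m v) : LL x y m (u + v) :=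
  fun j => by rw [map_add]; exact add_mem (hu j) (hv j)

lemma mem_of_smul_mem {V : Submodule ℂ R} {n : ℕ} {w : R} (h : ((n + 1 : ℕ) : ℂ) • w ∈ V) :
    w ∈ V := by
  have h4 : ((n + 1 : ℕ) : ℂ) ≠ 0 := by exact_mod_cast n.succ_ne_zero
  exact (V.smul_mem_iff h4).1 h

lemma conj_C {m : ℕ} {a w : R} (ha : a ∈ LieDeg x y 0) (hw : w ∈ LieDeg x y m) :
    LL x y m (ex (-a) * C w * ex a) := by
  set g := ex (-a) * C w * ex a with hg
  have hd : der g = g * C a - C a * g := by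
    rw [hg, der_mul, der_mul, der_C, der_ex, der_ex, map_neg, mul_neg, ex_neg_mul_C]
    noncomm_ring
  intro j
  induction j with
  | zero =>
    rw [hg, coeff_zero_mul', coeff_zero_mul', coeff_zero_ex, coeff_zero_ex, coeff_zero_C]
    simpa using hw
  | succ j ih =>
    apply mem_of_smul_mem (n := j)
    rw [← coeff_der, hd, map_sub, coeff_mul_C, coeff_C_mul, ← add_assoc]
    exact brk_mem ih ha

lemma conj_LL {a : R} (ha : a ∈ LieDeg x y 0) {m : ℕ} {u : R⟦X⟧} (hu : LL x y m u) :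
    LL x y m (ex (-a) * u * ex a) := by
  intro n
  induction n generalizing m u with
  | zero =>
    rw [coeff_zero_mul', coeff_zero_mul', coeff_zero_ex, coeff_zero_ex]
    simpa using hu 0
  | succ n ih =>
    have e := eq_X_mul_shift_add_const u
    set u' : R⟦X⟧ := PowerSeries.mk fun p => coeff (p + 1) u with hu'
    have h1 : LL x y (m + 1) u' := by
      intro j
      rw [hu', coeff_mk, add_assoc, add_comm 1 j]
      exact hu (j + 1)
    have h0 : constantCoeff u ∈ LieDeg x y m := by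
      have := hu 0
      rwa [add_zero, coeff_zero_eq_constantCoeff_apply] at this
    have e2 : ex (-a) * u * ex a =
        X * (ex (-a) * u' * ex a) + ex (-a) * C (constantCoeff u) * ex a := by
      conv_lhs => rw [e]
      rw [mul_add, add_mul, ← mul_assoc, ← X_mul]
      simp only [mul_assoc]
    rw [e2, map_add, coeff_succ_X_mul]
    refine add_mem ?_ (conj_C ha h0 (n + 1))
    have := ih h1
    rwa [add_assoc, add_comm 1 n] at this

variable (x y) in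
/-- The group generated by the exponentials of degree one elements. -/
noncomputable def GG : Subgroup (R⟦X⟧)ˣ :=
  Subgroup.closure {g | ∃ a ∈ LieDeg x y 0, g = exU a}

lemma exU_mem_GG {a : R} (ha : a ∈ LieDeg x y 0) : exU a ∈ GG x y :=
  Subgroup.subset_closure ⟨a, ha, rfl⟩

lemma good_of_mem {g : (R⟦X⟧)ˣ} (hg : g ∈ GG x y) :
    coeff 0 (g : R⟦X⟧) = 1 ∧
      (∀ m u, LL x y m u → LL x y m (((g⁻¹ : (R⟦X⟧)ˣ) : R⟦X⟧) * u * g)) ∧
      LL x y 0 (((g⁻¹ : (R⟦X⟧)ˣ) : R⟦X⟧) * der g) := by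
  have base : ∀ a ∈ LieDeg x y 0, coeff 0 (exU a : R⟦X⟧) = 1 ∧
      (∀ m u, LL x y m u → LL x y m ((((exU a)⁻¹ : (R⟦X⟧)ˣ) : R⟦X⟧) * u * exU a)) ∧
      LL x y 0 ((((exU a)⁻¹ : (R⟦X⟧)ˣ) : R⟦X⟧) * der (exU a : R⟦X⟧)) := by
    intro a ha
    refine ⟨coeff_zero_ex a, fun m u hu => ?_, ?_⟩
    · rw [exU_inv]
      exact conj_LL ha hu
    · rw [exU_inv, val_exU, val_exU, der_ex, ← mul_assoc, ex_neg_mul, one_mul]
      intro j
      cases j with
      | zero => rw [coeff_zero_C]; exact ha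
      | succ j => rw [coeff_succ_C]; exact zero_mem _
  induction hg using Subgroup.closure_induction'' with
  | mem g hg =>
    obtain ⟨a, ha, rfl⟩ := hg
    exact base a ha
  | inv_mem g hg =>
    obtain ⟨a, ha, rfl⟩ := hg
    rw [exU_inv]
    exact base (-a) (neg_mem ha)
  | one =>
    refine ⟨by simp, fun m u hu => by simpa using hu, ?_⟩
    rw [Units.val_one, der_one, mul_zero]
    intro j
    simp
  | mul g h _ _ ihg ihh =>
    refine ⟨by rw [Units.val_mul, coeff_zero_mul', ihg.1, ihh.1, mul_one], fun m u hu => ?_, ?_⟩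
    · have := ihh.2.1 m _ (ihg.2.1 m u hu)
      rw [mul_inv_rev, Units.val_mul, Units.val_mul]
      simpa only [mul_assoc] using this
    · have := (ihh.2.1 0 _ ihg.2.2).add ihh.2.2
      rw [mul_inv_rev, Units.val_mul, Units.val_mul, der_mul, mul_add]
      have e : ((h⁻¹ : (R⟦X⟧)ˣ) : R⟦X⟧) * ((g⁻¹ : (R⟦X⟧)ˣ) : R⟦X⟧) * ((g : R⟦X⟧) * der h) =
          ((h⁻¹ : (R⟦X⟧)ˣ) : R⟦X⟧) * der h := by
        rw [mul_assoc, Units.inv_mul_cancel_left]
      rw [e]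
      simpa only [mul_assoc] using this

lemma coeff_zero_of_mem {g : (R⟦X⟧)ˣ} (hg : g ∈ GG x y) : coeff 0 (g : R⟦X⟧) = 1 :=
  (good_of_mem hg).1

lemma lead_mem {g : (R⟦X⟧)ˣ} (hg : g ∈ GG x y) {n : ℕ} (hv : Van (n + 1) ((g : R⟦X⟧) - 1)) :
    coeff (n + 1) (g : R⟦X⟧) ∈ LieDeg x y n := by
  have h := (good_of_mem hg).2.2 n
  set u := ((g⁻¹ : (R⟦X⟧)ˣ) : R⟦X⟧) * der g with hu
  have e : der (g : R⟦X⟧) = u + ((g : R⟦X⟧) - 1) * u := by
    rw [sub_mul, one_mul, add_sub_cancel, hu, Units.mul_inv_cancel_left]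
  apply mem_of_smul_mem (n := n)
  rw [← coeff_der, e, map_add, hv.mul_right u n (Nat.lt_succ_self n), add_zero]
  rwa [zero_add] at h

lemma lead_mem₂ {g s : (R⟦X⟧)ˣ} (hg : g ∈ GG x y) (hs : s ∈ GG x y) {n : ℕ}
    (hv : Van (n + 1) ((g : R⟦X⟧) - (s : R⟦X⟧))) :
    coeff (n + 1) ((g : R⟦X⟧) - (s : R⟦X⟧)) ∈ LieDeg x y n := by
  have e : ((s⁻¹ * g : (R⟦X⟧)ˣ) : R⟦X⟧) - 1 = ((s⁻¹ : (R⟦X⟧)ˣ) : R⟦X⟧) * ((g : R⟦X⟧) - s) := by
    rw [mul_sub, Units.inv_mul, Units.val_mul]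
  have h1 : Van (n + 1) (((s⁻¹ * g : (R⟦X⟧)ˣ) : R⟦X⟧) - 1) := by
    rw [e]; exact hv.mul_left _
  have h2 := lead_mem (mul_mem (inv_mem hs) hg) h1
  rw [← coeff_succ_sub_one, e, hv.coeff_mul_left, coeff_zero_of_mem (inv_mem hs), one_mul] at h2
  exact h2

variable (x y) in
/-- The group generated by the purely imaginary flows. -/
noncomputable def HH : Subgroup (R⟦X⟧)ˣ :=
  Subgroup.closure {g | ∃ s : ℝ, g = exU ((Complex.I * s) • x) ∨ g = exU ((Complex.I * s) • y)}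

lemma HH_le_GG : HH x y ≤ GG x y := by
  refine (Subgroup.closure_le _).2 ?_
  rintro g ⟨s, rfl | rfl⟩
  · exact exU_mem_GG (Submodule.smul_mem _ _ x_mem)
  · exact exU_mem_GG (Submodule.smul_mem _ _ y_mem)

variable (x y) in
/-- Leading terms of elements of `HH`. -/
noncomputable def WW (k : ℕ) : AddSubgroup R where
  carrier := {w | ∃ h ∈ HH x y, Van (k + 1) ((h : R⟦X⟧) - 1) ∧ coeff (k + 1) (h : R⟦X⟧) = w}
  zero_mem' := ⟨1, one_mem _, by simpa using Van.zero _, by simp [coeff_one]⟩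
  add_mem' := by
    rintro _ _ ⟨h, hh, hv, rfl⟩ ⟨h', hh', hv', rfl⟩
    have e : ((h * h' : (R⟦X⟧)ˣ) : R⟦X⟧) - 1 = ((h : R⟦X⟧) - 1) * h' + ((h' : R⟦X⟧) - 1) := by
      rw [Units.val_mul]; noncomm_ring
    refine ⟨h * h', mul_mem hh hh', ?_, ?_⟩
    · rw [e]; exact (hv.mul_right _).add hv'
    · rw [← coeff_succ_sub_one, e, map_add, hv.coeff_mul_right,
        coeff_zero_of_mem (HH_le_GG hh'), mul_one, coeff_succ_sub_one, coeff_succ_sub_one]
  neg_mem' := by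
    rintro _ ⟨h, hh, hv, rfl⟩
    have e : ((h⁻¹ : (R⟦X⟧)ˣ) : R⟦X⟧) - 1 = -(((h⁻¹ : (R⟦X⟧)ˣ) : R⟦X⟧) * ((h : R⟦X⟧) - 1)) := by
      rw [mul_sub, Units.inv_mul, mul_one, neg_sub]
    refine ⟨h⁻¹, inv_mem hh, ?_, ?_⟩
    · rw [e]; exact (hv.mul_left _).neg
    · rw [← coeff_succ_sub_one, e, map_neg, hv.coeff_mul_left,
        coeff_zero_of_mem (HH_le_GG (inv_mem hh)), one_mul, coeff_succ_sub_one]

lemma brk_mem_WW {k : ℕ} {w a : R} (hw : w ∈ WW x y k) (ha : a ∈ WW x y 0) :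
    brk w a ∈ WW x y (k + 1) := by
  obtain ⟨h, hh, hv, rfl⟩ := hw
  obtain ⟨g, hg, -, rfl⟩ := ha
  have h0 := coeff_zero_of_mem (HH_le_GG (inv_mem hh))
  have g0 := coeff_zero_of_mem (HH_le_GG hg)
  have g0' := coeff_zero_of_mem (HH_le_GG (inv_mem hg))
  obtain ⟨v, c⟩ := conj_lead (Units.mul_inv h) h0 hv g0
  have e : ((h * g * h⁻¹ * g⁻¹ : (R⟦X⟧)ˣ) : R⟦X⟧) - 1 =
      ((h : R⟦X⟧) * g * ((h⁻¹ : (R⟦X⟧)ˣ) : R⟦X⟧) - g) * ((g⁻¹ : (R⟦X⟧)ˣ) : R⟦X⟧) := by
    rw [sub_mul, Units.mul_inv, Units.val_mul, Units.val_mul, Units.val_mul]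
  refine ⟨h * g * h⁻¹ * g⁻¹, mul_mem (mul_mem (mul_mem hh hg) (inv_mem hh)) (inv_mem hg), ?_, ?_⟩
  · rw [e, show k + 1 + 1 = k + 2 by ring]; exact v.mul_right _
  · rw [← coeff_succ_sub_one, e, show k + 1 + 1 = k + 2 by ring, v.coeff_mul_right, g0', mul_one,
      c, brk_apply, zero_add]

lemma mem_WW_zero {a : R} (h : exU a ∈ HH x y) : a ∈ WW x y 0 :=
  ⟨exU a, h, by rw [zero_add]; exact van_one_sub_one (coeff_zero_ex a), by
    rw [zero_add]; exact coeff_one_ex a⟩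

lemma LieDeg_le_span (k : ℕ) : LieDeg x y k ≤ Submodule.span ℂ (WW x y k : Set R) := by
  have h0 : Submodule.span ℂ ({x, y} : Set R) ≤ Submodule.span ℂ (WW x y 0 : Set R) := by
    refine Submodule.span_le.2 ?_
    have key : ∀ z : R, (Complex.I * (1 : ℝ)) • z ∈ WW x y 0 →
        z ∈ Submodule.span ℂ (WW x y 0 : Set R) := by
      intro z hz
      have h1 : (Complex.I * (1 : ℝ)) ≠ 0 := by simp
      exact (Submodule.smul_mem_iff _ h1).1 (Submodule.subset_span hz)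
    rintro z (rfl | rfl)
    · exact key _ (mem_WW_zero (Subgroup.subset_closure ⟨1, Or.inl rfl⟩))
    · exact key _ (mem_WW_zero (Subgroup.subset_closure ⟨1, Or.inr rfl⟩))
  induction k with
  | zero => exact h0
  | succ k ih =>
    refine (Submodule.map₂_le_map₂ ih h0).trans ?_
    rw [Submodule.map₂_span_span]
    refine Submodule.span_mono ?_
    rintro _ ⟨w, hw, a, ha, rfl⟩
    exact brk_mem_WW hw ha

end Pool.Agent.H25Z.Split
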