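import Pool.Agent.H25Z.Split.Rep

set_option autoImplicit false
set_option maxHeartbeats 400000
set_option linter.unusedSectionVars false

namespace Pool.Agent.H25Z.Split

open PowerSeries Finset Filter Topology
open scoped PowerSeries.WithPiTopology

variable {R : Type*} [NormedRing R] [NormedAlgebra ℂ R] {x y : R}

lemma continuous_ex : Continuous (ex : R → R⟦X⟧) := by
  rw [continuous_iff_continuousAt]
  intro a
  rw [ContinuousAt, PowerSeries.WithPiTopology.tendsto_iff_coeff_tendsto]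
  intro n
  simp only [coeff_ex]
  have : Continuous fun a : R => ((n.factorial : ℂ)⁻¹) • a ^ n := by fun_prop
  exact this.continuousAt

lemma continuous_exU : Continuous (exU : R → (R⟦X⟧)ˣ) :=
  Units.continuous_iff.2 ⟨continuous_ex, continuous_ex.comp continuous_neg⟩

lemma continuous_gen : Continuous fun p : ℂ × ℂ => gen x y p.1 p.2 :=
  (continuous_exU.comp (by fun_prop)).mul (continuous_exU.comp (by fun_prop))

lemma continuous_coeffU (j : ℕ) : Continuous fun g : (R⟦X⟧)ˣ => coeff j (g : R⟦X⟧) :=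
  (PowerSeries.WithPiTopology.continuous_coeff R j).comp Units.continuous_val

lemma gen_mem_closure {a b : ℂ} (ha : 0 ≤ a.re) (hb : 0 ≤ b.re) :
    gen x y a b ∈ (SS x y).topologicalClosure := by
  have h1 : Continuous fun t : ℝ => gen x y (a + t) (b + t) :=
    continuous_gen.comp (f := fun t : ℝ => ((a + t, b + t) : ℂ × ℂ)) (by fun_prop)
  have h2 : Tendsto (fun t : ℝ => gen x y (a + t) (b + t)) (𝓝[>] 0) (𝓝 (gen x y a b)) := by
    have := h1.tendsto 0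
    simp only [Complex.ofReal_zero, add_zero] at this
    exact this.mono_left nhdsWithin_le_nhds
  refine mem_closure_of_tendsto h2 ?_
  filter_upwards [self_mem_nhdsWithin] with t ht
  have ht' : 0 < t := ht
  refine gen_mem_SS ?_ ?_ <;> simp only [Complex.add_re, Complex.ofReal_re] <;> linarith

lemma mem_closure_of_HH {h : (R⟦X⟧)ˣ} (hh : h ∈ HH x y) : h ∈ (SS x y).topologicalClosure := by
  have k1 : ∀ c : ℂ, c.re = 0 → exU (c • x) ∈ (SS x y).topologicalClosure := by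
    intro c hc
    have := gen_mem_closure (x := x) (y := y) (a := c) (b := 0) hc.ge (by simp)
    rwa [gen, zero_smul, exU_zero, mul_one] at this
  have k2 : ∀ c : ℂ, c.re = 0 → exU (c • y) ∈ (SS x y).topologicalClosure := by
    intro c hc
    have := gen_mem_closure (x := x) (y := y) (a := 0) (b := c) (by simp) hc.ge
    rwa [gen, zero_smul, exU_zero, one_mul] at this
  induction hh using Subgroup.closure_induction'' with
  | mem g hg =>
    obtain ⟨s, rfl | rfl⟩ := hg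
    · exact k1 _ (by simp)
    · exact k2 _ (by simp)
  | inv_mem g hg =>
    obtain ⟨s, rfl | rfl⟩ := hg
    · rw [exU_inv, ← neg_smul]; exact k1 _ (by simp)
    · rw [exU_inv, ← neg_smul]; exact k2 _ (by simp)
  | one => exact one_mem _
  | mul g h _ _ ihg ihh => exact mul_mem ihg ihh

variable (x y) in
/-- `g` is matched below degree `M` by a method with bound `B`. -/
def Hit (M : ℕ) (B : ℕ → ℝ) (g : (R⟦X⟧)ˣ) : Prop :=
  g ∈ GG x y → ∃ s ∈ SS x y, Van M ((s : R⟦X⟧) - (g : R⟦X⟧)) ∧ Bdd B (s : R⟦X⟧)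

variable (x y) in
/-- The inductive statement. -/
def QQ (M : ℕ) : Prop := ∀ τ : ℝ, 0 < τ → ∃ B, ∀ᶠ g in 𝓝 (ee x y τ), Hit x y M B g

lemma near_gen {k : ℕ} {B : ℕ → ℝ} {w : R} (hw : w ∈ WW x y k) {a b : ℂ} (ha : 0 < a.re)
    (hb : 0 < b.re) (hB : ∀ᶠ g in 𝓝 ((gen x y a b)⁻¹ * ee x y 1), Hit x y (k + 2) B g) :
    Near x y (k + 2) (brk w (a • x + b • y)) := by
  set y0 := gen x y a b with hy0
  apply near_of_int (K := conv (fun j => 1 + ‖coeff j (y0 : R⟦X⟧)‖) B (k + 2) +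
    ‖coeff (k + 2) (ee x y 1 : R⟦X⟧)‖)
  intro m
  obtain ⟨h, hh, hv, hc⟩ := (WW x y k).zsmul_mem hw m
  set c := h * y0 * h⁻¹ with hcdef
  have hcT : c ∈ (SS x y).topologicalClosure :=
    mul_mem (mul_mem (mem_closure_of_HH hh) ((SS x y).le_topologicalClosure (gen_mem_SS ha hb)))
      (mem_closure_of_HH (inv_mem hh))
  have hcG : c ∈ GG x y :=
    mul_mem (mul_mem (HH_le_GG hh) (gen_mem_GG a b)) (HH_le_GG (inv_mem hh))
  obtain ⟨dv, dc⟩ := conj_lead (Units.mul_inv h) (coeff_zero_of_mem (HH_le_GG (inv_mem hh))) hv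
    (coeff_zero_of_mem (gen_mem_GG (x := x) (y := y) a b))
  have hcval : (c : R⟦X⟧) = (h : R⟦X⟧) * y0 * ((h⁻¹ : (R⟦X⟧)ˣ) : R⟦X⟧) := by
    rw [hcdef, Units.val_mul, Units.val_mul]
  rw [← hy0, ← hcval] at dv dc
  rw [hc, hy0, coeff_one_gen, ← hy0, ← brk_apply, map_zsmul, LinearMap.smul_apply] at dc
  have hF : Tendsto (fun s : (R⟦X⟧)ˣ => s⁻¹ * c * y0⁻¹ * ee x y 1) (𝓝 c)
      (𝓝 (y0⁻¹ * ee x y 1)) := by
    have : Continuous fun s : (R⟦X⟧)ˣ => s⁻¹ * c * y0⁻¹ * ee x y 1 :=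
      ((continuous_inv.mul continuous_const).mul continuous_const).mul continuous_const
    have := this.tendsto c
    rwa [inv_mul_cancel, one_mul] at this
  have e1 := hF.eventually hB
  have e2 : ∀ᶠ s : (R⟦X⟧)ˣ in 𝓝 c, ∀ j ∈ range (k + 3),
      ‖coeff j (s : R⟦X⟧) - coeff j (c : R⟦X⟧)‖ ≤ 1 := by
    rw [eventually_all_finset]
    intro j _
    have h1 : Continuous fun s : (R⟦X⟧)ˣ => ‖coeff j (s : R⟦X⟧) - coeff j (c : R⟦X⟧)‖ :=
      ((continuous_coeffU j).sub continuous_const).norm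
    have h2 := h1.tendsto c
    rw [sub_self, norm_zero] at h2
    exact h2.eventually (ge_mem_nhds zero_lt_one)
  have e3 : ∃ᶠ s in 𝓝 c, s ∈ (SS x y : Set (R⟦X⟧)ˣ) := mem_closure_iff_frequently.1 hcT
  obtain ⟨s, hs, hs1, hs2⟩ := (e3.and_eventually (e1.and e2)).exists
  have hsG := mem_GG_of_SS hs
  obtain ⟨r, hr, rv, rb⟩ := hs1
    (mul_mem (mul_mem (mul_mem (inv_mem hsG) hcG) (inv_mem (gen_mem_GG a b))) (ee_mem_GG 1))
  have e : ((s * r : (R⟦X⟧)ˣ) : R⟦X⟧) - (ee x y 1 : R⟦X⟧) =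
      (s : R⟦X⟧) * ((r : R⟦X⟧) - ((s⁻¹ * c * y0⁻¹ * ee x y 1 : (R⟦X⟧)ˣ) : R⟦X⟧)) +
        ((c : R⟦X⟧) - (y0 : R⟦X⟧)) * ((y0⁻¹ * ee x y 1 : (R⟦X⟧)ˣ) : R⟦X⟧) := by
    rw [mul_sub, sub_mul, ← Units.val_mul, ← Units.val_mul, ← Units.val_mul, ← Units.val_mul]
    have h1 : s * (s⁻¹ * c * y0⁻¹ * ee x y 1) = c * (y0⁻¹ * ee x y 1) := by group
    have h2 : y0 * (y0⁻¹ * ee x y 1) = ee x y 1 := by group
    rw [h1, h2]
    abel
  refine ⟨_, _, ⟨s * r, mul_mem hs hr, ?_, rfl, bdd_self _⟩, ?_⟩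
  · rw [e]; exact (rv.mul_left _).add (dv.mul_right _)
  · have e' : ((s * r : (R⟦X⟧)ˣ) : R⟦X⟧) = ((s : R⟦X⟧) - ((c : R⟦X⟧) - (y0 : R⟦X⟧))) * r +
        ((c : R⟦X⟧) - (y0 : R⟦X⟧)) * r := by
      rw [Units.val_mul]; noncomm_ring
    rw [map_sub, e', map_add, dv.coeff_mul_right, dc, coeff_zero_of_mem (mem_GG_of_SS hr), mul_one]
    have e'' : ∀ u v z : R, u + v - z - v = u - z := fun u v z => by abel
    rw [e'']
    refine (norm_sub_le _ _).trans (add_le_add ?_ le_rfl)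
    refine norm_coeff_mul_le (fun i hi => ?_) rb
    have h1 := hs2 i (mem_range.2 (by omega))
    have e3 : coeff i ((s : R⟦X⟧) - ((c : R⟦X⟧) - (y0 : R⟦X⟧))) =
        (coeff i (s : R⟦X⟧) - coeff i (c : R⟦X⟧)) + coeff i (y0 : R⟦X⟧) := by
      rw [map_sub, map_sub]; abel
    rw [e3]
    exact (norm_add_le _ _).trans (add_le_add h1 le_rfl)

lemma near_all {k : ℕ} (hQ : QQ x y (k + 2)) : ∀ v ∈ LieDeg x y (k + 1), Near x y (k + 2) v := by
  obtain ⟨B, hB⟩ := hQ 1 one_pos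
  have hz : Near x y (k + 2) 0 := by
    obtain ⟨s, hs, sv, sb⟩ := hB.self_of_nhds (ee_mem_GG 1)
    exact ⟨_, fun t => ⟨_, _, ⟨s, hs, sv, rfl, sb⟩, by rw [smul_zero, sub_zero]⟩⟩
  set U : Set (ℂ × ℂ) :=
    {p | ∀ᶠ g in 𝓝 ((gen x y p.1 p.2)⁻¹ * ee x y 1), Hit x y (k + 2) B g} with hU
  have hUo : IsOpen U := by
    have h1 : Continuous fun p : ℂ × ℂ => (gen x y p.1 p.2)⁻¹ * ee x y 1 :=
      continuous_gen.inv.mul continuous_const
    exact (isOpen_setOfPred_eventually_nhds (p := Hit x y (k + 2) B)).preimage h1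
  have hU0 : ((0, 0) : ℂ × ℂ) ∈ U := by
    rw [hU, Set.mem_ofPred_eq, gen, zero_smul, zero_smul, exU_zero, mul_one, inv_one, one_mul]
    exact hB
  obtain ⟨δ, hδ, hδU⟩ : ∃ δ : ℝ, 0 < δ ∧ (((δ : ℂ), (δ : ℂ)) : ℂ × ℂ) ∈ U := by
    have h1 : Continuous fun t : ℝ => (((t : ℂ), (t : ℂ)) : ℂ × ℂ) := by fun_prop
    have h2 : ∀ᶠ t : ℝ in 𝓝 0, (((t : ℂ), (t : ℂ)) : ℂ × ℂ) ∈ U :=
      h1.continuousAt.eventually (hUo.mem_nhds (by simpa using hU0))
    obtain ⟨t, ht1, ht2⟩ := ((h2.filter_mono nhdsWithin_le_nhds).and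
      (self_mem_nhdsWithin : Set.Ioi (0 : ℝ) ∈ 𝓝[>] 0)).exists
    exact ⟨t, ht2, ht1⟩
  have key : ∀ w ∈ WW x y k, ∀ u ∈ LieDeg x y 0, Near x y (k + 2) (brk w u) := by
    intro w hw u hu
    obtain ⟨a, b, rfl⟩ := Submodule.mem_span_pair.1 hu
    have h1 : Continuous fun t : ℝ => ((δ + t * a, δ + t * b) : ℂ × ℂ) := by fun_prop
    have hO : IsOpen (U ∩ {p : ℂ × ℂ | 0 < p.1.re ∧ 0 < p.2.re}) :=
      hUo.inter ((isOpen_lt (f := fun _ : ℂ × ℂ => (0 : ℝ)) (g := fun p => p.1.re) continuous_const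
        (by fun_prop)).inter (isOpen_lt (f := fun _ : ℂ × ℂ => (0 : ℝ)) (g := fun p => p.2.re)
        continuous_const (by fun_prop)))
    have h2 : ∀ᶠ t : ℝ in 𝓝 0, ((δ + t * a, δ + t * b) : ℂ × ℂ) ∈
        U ∩ {p : ℂ × ℂ | 0 < p.1.re ∧ 0 < p.2.re} :=
      h1.continuousAt.eventually (hO.mem_nhds (by simpa using ⟨hδU, hδ⟩))
    obtain ⟨t, ⟨ht1, ht3, ht4⟩, ht2⟩ := ((h2.filter_mono nhdsWithin_le_nhds).and
      (self_mem_nhdsWithin : Set.Ioi (0 : ℝ) ∈ 𝓝[>] 0)).exists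
    have ht2' : 0 < t := ht2
    have n1 := near_gen hw ht3 ht4 ht1
    have n2 := near_gen hw (a := δ) (b := δ) (by simpa using hδ) (by simpa using hδ) hδU
    have n3 := (n1.add (n2.smul (-1))).smul t⁻¹
    have e : ((t⁻¹ : ℝ) : ℂ) • (brk w (((δ : ℂ) + t * a) • x + ((δ : ℂ) + t * b) • y) +
        ((-1 : ℝ) : ℂ) • brk w ((δ : ℂ) • x + (δ : ℂ) • y)) = brk w (a • x + b • y) := by
      rw [← map_smul, ← map_add, ← map_smul]
      congr 1
      have ht5 : (t : ℂ) ≠ 0 := by exact_mod_cast ht2'.ne'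
      have e1 : ((t⁻¹ : ℝ) : ℂ) * (t * a) = a := by
        rw [Complex.ofReal_inv]; field_simp
      have e2 : ((t⁻¹ : ℝ) : ℂ) * (t * b) = b := by
        rw [Complex.ofReal_inv]; field_simp
      have e3 : ((δ : ℂ) + t * a) • x + ((δ : ℂ) + t * b) • y +
          ((-1 : ℝ) : ℂ) • ((δ : ℂ) • x + (δ : ℂ) • y) = ((t : ℂ) * a) • x + ((t : ℂ) * b) • y := by
        rw [Complex.ofReal_neg, Complex.ofReal_one, neg_one_smul, add_smul, add_smul]
        abel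
      rw [e3, smul_add, smul_smul, smul_smul, e1, e2]
    rwa [e] at n3
  have key2 : ∀ w ∈ Submodule.span ℂ (WW x y k : Set R), ∀ u ∈ LieDeg x y 0,
      Near x y (k + 2) (brk w u) := by
    intro w hw
    induction hw using Submodule.span_induction with
    | mem w hw => exact key w hw
    | zero => intro u _; rw [map_zero, LinearMap.zero_apply]; exact hz
    | add w w' _ _ h1 h2 =>
      intro u hu
      rw [map_add, LinearMap.add_apply]
      exact (h1 u hu).add (h2 u hu)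
    | smul c w _ h1 =>
      intro u hu
      rw [map_smul, LinearMap.smul_apply, ← map_smul]
      exact h1 _ (Submodule.smul_mem _ _ hu)
  let D : Submodule ℂ R :=
    { carrier := {v | ∀ c : ℂ, Near x y (k + 2) (c • v)}
      zero_mem' := fun c => by rw [smul_zero]; exact hz
      add_mem' := fun {v w} hv hw c => by rw [smul_add]; exact (hv c).add (hw c)
      smul_mem' := fun c v hv c' => by rw [smul_smul]; exact hv _ }
  have hD : LieDeg x y (k + 1) ≤ D := by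
    refine Submodule.map₂_le.2 fun w hw u hu c => ?_
    rw [← map_smul]
    exact key2 w (LieDeg_le_span k hw) _ (Submodule.smul_mem _ _ hu)
  intro v hv
  have := hD hv 1
  rwa [one_smul] at this

lemma QQ_succ {k : ℕ} (hQ : QQ x y (k + 2)) : QQ x y (k + 3) := by
  intro τ hτ
  obtain ⟨B, hB⟩ := hQ (τ / 2) (half_pos hτ)
  obtain ⟨B', hB'⟩ := cover (k := k + 1) (near_all hQ) (τ / 2) (half_pos hτ)
    (‖coeff (k + 2) (ee x y (τ / 2) : R⟦X⟧)‖ + 1 + B (k + 2))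
  refine ⟨conv B B', ?_⟩
  have hF : Tendsto (fun g : (R⟦X⟧)ˣ => g * (ee x y (τ / 2))⁻¹) (𝓝 (ee x y τ))
      (𝓝 (ee x y (τ / 2))) := by
    have : Continuous fun g : (R⟦X⟧)ˣ => g * (ee x y (τ / 2))⁻¹ := by fun_prop
    have := this.tendsto (ee x y τ)
    have e : ee x y τ * (ee x y (τ / 2))⁻¹ = ee x y (τ / 2) := by
      rw [mul_inv_eq_iff_eq_mul, ee_mul, add_halves]
    rwa [e] at this
  have e2 : ∀ᶠ g : (R⟦X⟧)ˣ in 𝓝 (ee x y (τ / 2)), ‖coeff (k + 2) (g : R⟦X⟧)‖ ≤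
      ‖coeff (k + 2) (ee x y (τ / 2) : R⟦X⟧)‖ + 1 :=
    ((continuous_coeffU (k + 2)).norm.tendsto _).eventually (ge_mem_nhds (lt_add_one _))
  filter_upwards [hF.eventually (hB.and e2)] with g hg hgG
  set g' := g * (ee x y (τ / 2))⁻¹ with hg'
  have hg'G : g' ∈ GG x y := mul_mem hgG (inv_mem (ee_mem_GG _))
  obtain ⟨s, hs, sv, sb⟩ := hg.1 hg'G
  have hz := lead_mem₂ (mem_GG_of_SS hs) hg'G (n := k + 1) sv
  obtain ⟨p, hp, pv, pc, pb⟩ := hB' _ (neg_mem hz) (by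
    rw [norm_neg, map_sub]
    refine (norm_sub_le _ _).trans ?_
    have := sb (k + 2)
    have := hg.2
    linarith)
  refine ⟨s * p, mul_mem hs hp, ?_, sb.mul pb⟩
  have e : ((s * p : (R⟦X⟧)ˣ) : R⟦X⟧) - (g : R⟦X⟧) =
      ((s : R⟦X⟧) - (g' : R⟦X⟧)) * p +
        (g' : R⟦X⟧) * ((p : R⟦X⟧) - (ee x y (τ / 2) : R⟦X⟧)) := by
    have : (g : R⟦X⟧) = (g' : R⟦X⟧) * (ee x y (τ / 2) : R⟦X⟧) := by
      rw [← Units.val_mul, hg', inv_mul_cancel_right]
    rw [this, Units.val_mul]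
    noncomm_ring
  rw [e]
  refine ((sv.mul_right _).add (pv.mul_left _)).succ ?_
  rw [map_add, sv.coeff_mul_right, pv.coeff_mul_left, pc, coeff_zero_of_mem (mem_GG_of_SS hp),
    coeff_zero_of_mem hg'G, mul_one, one_mul, add_neg_cancel]

lemma bdd_ex [NormOneClass R] {a : R} {L : ℝ} (h : ‖a‖ ≤ L) : Bdd (fun j => L ^ j) (ex a) := by
  intro j
  rw [coeff_ex, norm_smul, norm_inv, Complex.norm_natCast]
  have h1 : ((j.factorial : ℝ))⁻¹ ≤ 1 :=
    inv_le_one_of_one_le₀ (by exact_mod_cast j.factorial_pos)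
  have h2 : ‖a ^ j‖ ≤ L ^ j := (norm_pow_le a j).trans (pow_le_pow_left₀ (norm_nonneg _) h j)
  have h3 : 0 ≤ ((j.factorial : ℝ))⁻¹ := by positivity
  nlinarith [norm_nonneg (a ^ j)]

lemma QQ_two [NormOneClass R]
    (hxy : ∀ a b : ℂ, ‖a‖ ≤ ‖a • x + b • y‖ ∧ ‖b‖ ≤ ‖a • x + b • y‖) : QQ x y 2 := by
  intro τ hτ
  refine ⟨conv (fun j => (2 * τ * ‖x‖) ^ j) (fun j => (2 * τ * ‖y‖) ^ j), ?_⟩
  have e2 : ∀ᶠ g : (R⟦X⟧)ˣ in 𝓝 (ee x y τ),
      ‖coeff 1 (g : R⟦X⟧) - coeff 1 (ee x y τ : R⟦X⟧)‖ ≤ τ / 2 := by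
    have h1 : Continuous fun s : (R⟦X⟧)ˣ => ‖coeff 1 (s : R⟦X⟧) - coeff 1 (ee x y τ : R⟦X⟧)‖ :=
      ((continuous_coeffU 1).sub continuous_const).norm
    have h2 := h1.tendsto (ee x y τ)
    rw [sub_self, norm_zero] at h2
    exact h2.eventually (ge_mem_nhds (half_pos hτ))
  filter_upwards [e2] with g hg hgG
  have h1 := lead_mem hgG (n := 0) (by rw [zero_add]; exact van_one_sub_one (coeff_zero_of_mem hgG))
  rw [zero_add] at h1
  obtain ⟨a, b, hab⟩ := Submodule.mem_span_pair.1 h1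
  have e : coeff 1 (g : R⟦X⟧) - coeff 1 (ee x y τ : R⟦X⟧) = (a - τ) • x + (b - τ) • y := by
    rw [← hab, ee, val_exU, coeff_one_ex, sub_smul, sub_smul, smul_add]
    abel
  rw [e] at hg
  have ha := (hxy (a - τ) (b - τ)).1.trans hg
  have hb := (hxy (a - τ) (b - τ)).2.trans hg
  have key : ∀ c : ℂ, ‖c - τ‖ ≤ τ / 2 → 0 < c.re ∧ ‖c‖ ≤ 2 * τ := by
    intro c hc
    constructor
    · have := (Complex.abs_re_le_norm (c - τ)).trans hc
      rw [Complex.sub_re, Complex.ofReal_re, abs_le] at this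
      linarith [this.1]
    · have h2 := norm_sub_norm_le c (τ : ℂ)
      rw [Complex.norm_real, Real.norm_eq_abs, abs_of_pos hτ] at h2
      linarith
  refine ⟨gen x y a b, gen_mem_SS (key a ha).1 (key b hb).1, ?_, ?_⟩
  · refine ((van_zero _).succ ?_).succ ?_
    · rw [map_sub, coeff_zero_of_mem (gen_mem_GG a b), coeff_zero_of_mem hgG, sub_self]
    · rw [zero_add, map_sub, coeff_one_gen, hab, sub_self]
  · refine (bdd_ex ?_).mul (bdd_ex ?_)
    · rw [norm_smul]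
      exact mul_le_mul_of_nonneg_right (key a ha).2 (norm_nonneg _)
    · rw [norm_smul]
      exact mul_le_mul_of_nonneg_right (key b hb).2 (norm_nonneg _)

theorem exists_method [NormOneClass R]
    (hxy : ∀ a b : ℂ, ‖a‖ ≤ ‖a • x + b • y‖ ∧ ‖b‖ ≤ ‖a • x + b • y‖) (N : ℕ) :
    ∃ s ∈ SS x y, Van N ((s : R⟦X⟧) - ex (x + y)) := by
  have hQ : ∀ k, QQ x y (k + 2) := by
    intro k
    induction k with
    | zero => exact QQ_two hxy
    | succ k ih => exact QQ_succ ih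
  obtain ⟨B, hB⟩ := hQ N 1 one_pos
  obtain ⟨s, hs, sv, -⟩ := hB.self_of_nhds (ee_mem_GG 1)
  refine ⟨s, hs, ?_⟩
  rw [ee, Complex.ofReal_one, one_smul, val_exU] at sv
  exact sv.mono (by omega)

end Pool.Agent.H25Z.Split
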