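import Mathlib

set_option autoImplicit false
set_option maxHeartbeats 400000

namespace Pool.Agent.H25Z.Split

open PowerSeries Finset

section Alg

variable {R : Type*} [Ring R] [Algebra ℂ R]

/-- The exponential series `exp (T x)`. -/
noncomputable def ex (x : R) : R⟦X⟧ := PowerSeries.mk fun n => ((n.factorial : ℂ)⁻¹) • x ^ n

lemma coeff_ex (x : R) (n : ℕ) : coeff n (ex x) = ((n.factorial : ℂ)⁻¹) • x ^ n := coeff_mk _ _

lemma coeff_zero_ex (x : R) : coeff 0 (ex x) = 1 := by simp [coeff_ex]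

lemma coeff_one_ex (x : R) : coeff 1 (ex x) = x := by simp [coeff_ex]

lemma ex_mul_ex {x y : R} (h : Commute x y) : ex x * ex y = ex (x + y) := by
  ext n
  rw [coeff_mul, coeff_ex, h.add_pow', Finset.smul_sum]
  refine Finset.sum_congr rfl fun p hp => ?_
  rw [coeff_ex, coeff_ex, smul_mul_smul_comm, ← Nat.cast_smul_eq_nsmul ℂ, smul_smul]
  congr 1
  have hp' : p.1 + p.2 = n := mem_antidiagonal.1 hp
  have h1 := Nat.add_choose_mul_factorial_mul_factorial p.2 p.1
  rw [add_comm p.2 p.1, hp'] at h1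
  have h2 : ((n.choose p.1 : ℕ) : ℂ) * (p.2.factorial : ℂ) * (p.1.factorial : ℂ) =
      (n.factorial : ℂ) := by exact_mod_cast h1
  have h3 : (p.1.factorial : ℂ) ≠ 0 := by exact_mod_cast p.1.factorial_ne_zero
  have h4 : (p.2.factorial : ℂ) ≠ 0 := by exact_mod_cast p.2.factorial_ne_zero
  have h5 : (n.factorial : ℂ) ≠ 0 := by exact_mod_cast n.factorial_ne_zero
  field_simp
  rw [← h2]; ring

lemma ex_zero : ex (0 : R) = 1 := by
  ext n
  rw [coeff_ex, coeff_one]
  cases n <;> simp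

lemma ex_mul_neg (x : R) : ex x * ex (-x) = 1 := by
  rw [ex_mul_ex (Commute.neg_right (Commute.refl x)), add_neg_cancel, ex_zero]

lemma ex_neg_mul (x : R) : ex (-x) * ex x = 1 := by
  rw [ex_mul_ex (Commute.neg_left (Commute.refl x)), neg_add_cancel, ex_zero]

/-- The exponential series as a unit. -/
noncomputable def exU (x : R) : (R⟦X⟧)ˣ := ⟨ex x, ex (-x), ex_mul_neg x, ex_neg_mul x⟩

@[simp] lemma val_exU (x : R) : (exU x : R⟦X⟧) = ex x := rfl

lemma exU_inv (x : R) : (exU x)⁻¹ = exU (-x) := by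
  apply Units.ext
  rfl

lemma exU_zero : exU (0 : R) = 1 := Units.ext ex_zero

lemma exU_mul {x y : R} (h : Commute x y) : exU x * exU y = exU (x + y) :=
  Units.ext (ex_mul_ex h)

/-- Dilation `T ↦ c T`. -/
noncomputable def dil (c : ℂ) : R⟦X⟧ →+* R⟦X⟧ where
  toFun g := PowerSeries.mk fun n => c ^ n • coeff n g
  map_one' := by
    ext n
    rw [coeff_mk, coeff_one]
    split_ifs with h
    · simp [h]
    · simp
  map_mul' g h := by
    ext n
    rw [coeff_mk, coeff_mul, coeff_mul, Finset.smul_sum]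
    refine Finset.sum_congr rfl fun p hp => ?_
    rw [coeff_mk, coeff_mk, smul_mul_smul_comm, ← pow_add, mem_antidiagonal.1 hp]
  map_zero' := by
    ext n
    simp
  map_add' g h := by
    ext n
    simp

lemma coeff_dil (c : ℂ) (g : R⟦X⟧) (n : ℕ) : coeff n (dil c g) = c ^ n • coeff n g :=
  coeff_mk n (fun n => c ^ n • coeff n g)

lemma dil_ex (c : ℂ) (x : R) : dil c (ex x) = ex (c • x) := by
  ext n
  rw [coeff_dil, coeff_ex, coeff_ex, smul_pow, smul_comm]

/-- The formal derivative. -/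
noncomputable def der (g : R⟦X⟧) : R⟦X⟧ :=
  PowerSeries.mk fun n => ((n + 1 : ℕ) : ℂ) • coeff (n + 1) g

lemma coeff_der (g : R⟦X⟧) (n : ℕ) : coeff n (der g) = ((n + 1 : ℕ) : ℂ) • coeff (n + 1) g :=
  coeff_mk _ _

lemma der_mul (g h : R⟦X⟧) : der (g * h) = der g * h + g * der h := by
  ext n
  rw [coeff_der, map_add, coeff_mul, coeff_mul, coeff_mul, Finset.smul_sum]
  have h1 : ∑ p ∈ antidiagonal (n + 1), ((n + 1 : ℕ) : ℂ) • (coeff p.1 g * coeff p.2 h) =
      ∑ p ∈ antidiagonal (n + 1), (p.1 : ℂ) • (coeff p.1 g * coeff p.2 h) +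
      ∑ p ∈ antidiagonal (n + 1), (p.2 : ℂ) • (coeff p.1 g * coeff p.2 h) := by
    rw [← Finset.sum_add_distrib]
    refine Finset.sum_congr rfl fun p hp => ?_
    rw [← add_smul, ← Nat.cast_add, mem_antidiagonal.1 hp]
  rw [h1, Finset.Nat.sum_antidiagonal_succ, Finset.Nat.sum_antidiagonal_succ']
  simp only [Nat.cast_zero, zero_smul, zero_add]
  congr 1
  · refine Finset.sum_congr rfl fun p _ => ?_
    rw [coeff_der, smul_mul_assoc]
  · refine Finset.sum_congr rfl fun p _ => ?_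
    rw [coeff_der, mul_smul_comm]

lemma der_C (w : R) : der (C w : R⟦X⟧) = 0 := by
  ext n
  rw [coeff_der, coeff_succ_C]
  simp

lemma der_one : der (1 : R⟦X⟧) = 0 := by
  have := der_C (1 : R)
  rwa [map_one] at this

lemma der_ex (x : R) : der (ex x) = ex x * C x := by
  ext n
  rw [coeff_der, coeff_mul_C, coeff_ex, coeff_ex, smul_smul, pow_succ, smul_mul_assoc]
  congr 1
  have h3 : (n.factorial : ℂ) ≠ 0 := by exact_mod_cast n.factorial_ne_zero
  have h4 : ((n + 1 : ℕ) : ℂ) ≠ 0 := by exact_mod_cast n.succ_ne_zero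
  rw [Nat.factorial_succ, Nat.cast_mul]
  field_simp

lemma ex_mul_C (x : R) : ex x * C x = C x * ex x := by
  ext n
  rw [coeff_mul_C, coeff_C_mul, coeff_ex, smul_mul_assoc, mul_smul_comm, ← pow_succ, ← pow_succ']

lemma ex_neg_mul_C (x : R) : ex (-x) * C x = C x * ex (-x) := by
  have := ex_mul_C (-x)
  rw [map_neg, mul_neg, neg_mul, neg_inj] at this
  exact this

end Alg

section Van

variable {R : Type*} [Ring R]

/-- The first `n` coefficients vanish. -/
def Van (n : ℕ) (a : R⟦X⟧) : Prop := ∀ j < n, coeff j a = 0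

lemma van_zero (a : R⟦X⟧) : Van 0 a := fun _ h => absurd h (Nat.not_lt_zero _)

lemma Van.zero (n : ℕ) : Van n (0 : R⟦X⟧) := fun _ _ => by simp

lemma Van.mono {n m : ℕ} {a : R⟦X⟧} (h : Van n a) (hm : m ≤ n) : Van m a :=
  fun j hj => h j (hj.trans_le hm)

lemma Van.add {n : ℕ} {a b : R⟦X⟧} (ha : Van n a) (hb : Van n b) : Van n (a + b) :=
  fun j hj => by rw [map_add, ha j hj, hb j hj, add_zero]

lemma Van.neg {n : ℕ} {a : R⟦X⟧} (ha : Van n a) : Van n (-a) :=
  fun j hj => by rw [map_neg, ha j hj, neg_zero]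

lemma Van.sub {n : ℕ} {a b : R⟦X⟧} (ha : Van n a) (hb : Van n b) : Van n (a - b) :=
  fun j hj => by rw [map_sub, ha j hj, hb j hj, sub_zero]

lemma Van.succ {n : ℕ} {a : R⟦X⟧} (ha : Van n a) (h : coeff n a = 0) : Van (n + 1) a := by
  intro j hj
  rcases Nat.lt_succ_iff_lt_or_eq.1 hj with h' | h'
  · exact ha j h'
  · rw [h', h]

lemma Van.mul {n m : ℕ} {a b : R⟦X⟧} (ha : Van n a) (hb : Van m b) : Van (n + m) (a * b) := by
  intro j hj
  rw [coeff_mul]
  refine Finset.sum_eq_zero fun p hp => ?_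
  have hp' : p.1 + p.2 = j := mem_antidiagonal.1 hp
  by_cases h1 : p.1 < n
  · rw [ha _ h1, zero_mul]
  · rw [hb _ (by omega), mul_zero]

lemma Van.coeff_mul {n m : ℕ} {a b : R⟦X⟧} (ha : Van n a) (hb : Van m b) :
    coeff (n + m) (a * b) = coeff n a * coeff m b := by
  rw [PowerSeries.coeff_mul, Finset.sum_eq_single (n, m)]
  · intro p hp hne
    have hp' : p.1 + p.2 = n + m := mem_antidiagonal.1 hp
    by_cases h1 : p.1 < n
    · rw [ha _ h1, zero_mul]
    · have h2 : p.2 < m := by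
        by_contra h2
        apply hne
        ext <;> simp <;> omega
      rw [hb _ h2, mul_zero]
  · intro h
    exact absurd (by simp) h

lemma Van.mul_right {n : ℕ} {a : R⟦X⟧} (ha : Van n a) (b : R⟦X⟧) : Van n (a * b) := by
  have := ha.mul (van_zero b)
  rwa [add_zero] at this

lemma Van.mul_left {n : ℕ} {a : R⟦X⟧} (ha : Van n a) (b : R⟦X⟧) : Van n (b * a) := by
  have := (van_zero b).mul ha
  rwa [zero_add] at this

lemma Van.coeff_mul_right {n : ℕ} {a : R⟦X⟧} (ha : Van n a) (b : R⟦X⟧) :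
    coeff n (a * b) = coeff n a * coeff 0 b := by
  have := ha.coeff_mul (van_zero b)
  rwa [add_zero] at this

lemma Van.coeff_mul_left {n : ℕ} {a : R⟦X⟧} (ha : Van n a) (b : R⟦X⟧) :
    coeff n (b * a) = coeff 0 b * coeff n a := by
  have := (van_zero b).coeff_mul ha
  rwa [zero_add] at this

lemma coeff_zero_mul' (a b : R⟦X⟧) : coeff 0 (a * b) = coeff 0 a * coeff 0 b :=
  (van_zero a).coeff_mul_right b

lemma van_one_sub_one {a : R⟦X⟧} (h : coeff 0 a = 1) : Van 1 (a - 1) :=
  (van_zero _).succ (by rw [map_sub, h, coeff_zero_one, sub_self])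

lemma coeff_succ_sub_one (a : R⟦X⟧) (n : ℕ) : coeff (n + 1) (a - 1) = coeff (n + 1) a := by
  rw [map_sub, coeff_one, if_neg (Nat.succ_ne_zero n), sub_zero]

lemma coeff_one_sub_one (a : R⟦X⟧) : coeff 1 (a - 1) = coeff 1 a := by
  rw [map_sub, coeff_one, if_neg one_ne_zero, sub_zero]

/-- Conjugation: leading term of `h y h' - y`. -/
lemma conj_lead {k : ℕ} {h h' y : R⟦X⟧} (hh : h * h' = 1) (h0 : coeff 0 h' = 1)
    (hv : Van (k + 1) (h - 1)) (y0 : coeff 0 y = 1) :
    Van (k + 2) (h * y * h' - y) ∧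
      coeff (k + 2) (h * y * h' - y) =
        coeff (k + 1) h * coeff 1 y - coeff 1 y * coeff (k + 1) h := by
  have e : h * y * h' - y = ((h - 1) * (y - 1) - (y - 1) * (h - 1)) * h' := by
    have : y = y * h * h' := by rw [mul_assoc, hh, mul_one]
    calc h * y * h' - y = h * y * h' - y * h * h' := by rw [← this]
      _ = _ := by noncomm_ring
  have hy := van_one_sub_one y0
  have v1 : Van (k + 2) ((h - 1) * (y - 1)) := by
    have := hv.mul hy
    rwa [show k + 1 + 1 = k + 2 by ring] at this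
  have v2 : Van (k + 2) ((y - 1) * (h - 1)) := by
    have := hy.mul hv
    rwa [show 1 + (k + 1) = k + 2 by ring] at this
  have c1 : coeff (k + 2) ((h - 1) * (y - 1)) = coeff (k + 1) h * coeff 1 y := by
    have := hv.coeff_mul hy
    rw [coeff_succ_sub_one, coeff_one_sub_one, show k + 1 + 1 = k + 2 by ring] at this
    exact this
  have c2 : coeff (k + 2) ((y - 1) * (h - 1)) = coeff 1 y * coeff (k + 1) h := by
    have := hy.coeff_mul hv
    rw [coeff_succ_sub_one h k, coeff_one_sub_one, show 1 + (k + 1) = k + 2 by ring] at this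
    exact this
  rw [e]
  refine ⟨(v1.sub v2).mul_right _, ?_⟩
  rw [(v1.sub v2).coeff_mul_right, h0, mul_one, map_sub, c1, c2]

end Van

end Pool.Agent.H25Z.Split
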