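import Pool.Agent.H25Z.Split.Lie
import Pool.Agent.H25Z.Split.Cover

set_option autoImplicit false
set_option maxHeartbeats 400000
set_option linter.unusedSectionVars false

namespace Pool.Agent.H25Z.Split

open PowerSeries Finset Filter Topology
open scoped PowerSeries.WithPiTopology

section Alg

variable {R : Type*} [Ring R] [Algebra ℂ R] (x y : R)

/-- One splitting step. -/
noncomputable def gen (a b : ℂ) : (R⟦X⟧)ˣ := exU (a • x) * exU (b • y)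

/-- The monoid of splitting methods with coefficients of positive real part. -/
noncomputable def SS : Submonoid (R⟦X⟧)ˣ :=
  Submonoid.closure {g | ∃ a b : ℂ, 0 < a.re ∧ 0 < b.re ∧ g = gen x y a b}

/-- The exact flow. -/
noncomputable def ee (τ : ℝ) : (R⟦X⟧)ˣ := exU ((τ : ℂ) • (x + y))

variable {x y}

lemma gen_mem_SS {a b : ℂ} (ha : 0 < a.re) (hb : 0 < b.re) : gen x y a b ∈ SS x y :=
  Submonoid.subset_closure ⟨a, b, ha, hb, rfl⟩

lemma gen_mem_GG (a b : ℂ) : gen x y a b ∈ GG x y :=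
  mul_mem (exU_mem_GG (Submodule.smul_mem _ _ x_mem)) (exU_mem_GG (Submodule.smul_mem _ _ y_mem))

lemma mem_GG_of_SS {g : (R⟦X⟧)ˣ} (hg : g ∈ SS x y) : g ∈ GG x y := by
  induction hg using Submonoid.closure_induction with
  | mem g hg =>
    obtain ⟨a, b, -, -, rfl⟩ := hg
    exact gen_mem_GG a b
  | one => exact one_mem _
  | mul g h _ _ ihg ihh => exact mul_mem ihg ihh

lemma ee_mem_GG (τ : ℝ) : ee x y τ ∈ GG x y :=
  exU_mem_GG (Submodule.smul_mem _ _ (add_mem x_mem y_mem))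

lemma ee_mul (τ σ : ℝ) : ee x y τ * ee x y σ = ee x y (τ + σ) := by
  rw [ee, ee, ee, exU_mul, Complex.ofReal_add, add_smul]
  exact ((Commute.refl (x + y)).smul_left _).smul_right _

lemma ee_zero : ee x y 0 = 1 := by
  rw [ee, Complex.ofReal_zero, zero_smul, exU_zero]

lemma coeff_one_gen (a b : ℂ) : coeff 1 (gen x y a b : R⟦X⟧) = a • x + b • y := by
  rw [gen, Units.val_mul, val_exU, val_exU, coeff_mul, Finset.Nat.antidiagonal_succ]
  simp [coeff_zero_ex, coeff_one_ex, add_comm]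

/-- Dilation on units. -/
noncomputable def dilU (c : ℂ) : (R⟦X⟧)ˣ →* (R⟦X⟧)ˣ :=
  Units.map ((dil c : R⟦X⟧ →+* R⟦X⟧) : R⟦X⟧ →* R⟦X⟧)

lemma val_dilU (c : ℂ) (g : (R⟦X⟧)ˣ) : (dilU c g : R⟦X⟧) = dil c (g : R⟦X⟧) := rfl

lemma dilU_exU (c : ℂ) (a : R) : dilU c (exU a) = exU (c • a) :=
  Units.ext (dil_ex c a)

lemma dilU_mem_SS {t : ℝ} (ht : 0 < t) {g : (R⟦X⟧)ˣ} (hg : g ∈ SS x y) :
    dilU (t : ℂ) g ∈ SS x y := by
  induction hg using Submonoid.closure_induction with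
  | mem g hg =>
    obtain ⟨a, b, ha, hb, rfl⟩ := hg
    rw [gen, map_mul, dilU_exU, dilU_exU, smul_smul, smul_smul]
    refine gen_mem_SS ?_ ?_
    · rw [Complex.re_ofReal_mul]; positivity
    · rw [Complex.re_ofReal_mul]; positivity
  | one => rw [map_one]; exact one_mem _
  | mul g h _ _ ihg ihh => rw [map_mul]; exact mul_mem ihg ihh

lemma dilU_ee (t τ : ℝ) : dilU (t : ℂ) (ee x y τ) = ee x y (t * τ) := by
  rw [ee, ee, dilU_exU, smul_smul, Complex.ofReal_mul]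

end Alg

section Normed

variable {R : Type*} [NormedRing R] [NormedAlgebra ℂ R] {x y : R}

/-- Coefficientwise bound. -/
def Bdd (B : ℕ → ℝ) (g : R⟦X⟧) : Prop := ∀ j, ‖coeff j g‖ ≤ B j

/-- Convolution of bounds. -/
def conv (B B' : ℕ → ℝ) (j : ℕ) : ℝ := ∑ p ∈ antidiagonal j, B p.1 * B' p.2

lemma norm_coeff_mul_le {B B' : ℕ → ℝ} {g h : R⟦X⟧} {j : ℕ} (hg : ∀ i ≤ j, ‖coeff i g‖ ≤ B i)
    (hh : Bdd B' h) : ‖coeff j (g * h)‖ ≤ conv B B' j := by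
  rw [coeff_mul, conv]
  refine norm_sum_le_of_le _ fun p hp => ?_
  have hp' : p.1 + p.2 = j := mem_antidiagonal.1 hp
  have h1 := hg p.1 (by omega)
  exact (norm_mul_le _ _).trans (mul_le_mul h1 (hh p.2) (norm_nonneg _) ((norm_nonneg _).trans h1))

lemma Bdd.mul {B B' : ℕ → ℝ} {g h : R⟦X⟧} (hg : Bdd B g) (hh : Bdd B' h) :
    Bdd (conv B B') (g * h) := fun _ => norm_coeff_mul_le (fun i _ => hg i) hh

lemma bdd_self (g : R⟦X⟧) : Bdd (fun j => ‖coeff j g‖) g := fun _ => le_rfl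

variable (x y) in
/-- A method for time `τ` exact below degree `M`, with error `z` in degree `M`. -/
def Rep (M : ℕ) (τ : ℝ) (z : R) (B : ℕ → ℝ) : Prop :=
  ∃ p ∈ SS x y, Van M ((p : R⟦X⟧) - (ee x y τ : R⟦X⟧)) ∧
    coeff M ((p : R⟦X⟧) - (ee x y τ : R⟦X⟧)) = z ∧ Bdd B (p : R⟦X⟧)

lemma Rep.add {M : ℕ} {τ σ : ℝ} {z w : R} {B B' : ℕ → ℝ} (h1 : Rep x y M τ z B)
    (h2 : Rep x y M σ w B') : Rep x y M (τ + σ) (z + w) (conv B B') := by
  obtain ⟨p, hp, v1, rfl, b1⟩ := h1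
  obtain ⟨q, hq, v2, rfl, b2⟩ := h2
  have e : ((p * q : (R⟦X⟧)ˣ) : R⟦X⟧) - (ee x y (τ + σ) : R⟦X⟧) =
      ((p : R⟦X⟧) - (ee x y τ : R⟦X⟧)) * q + (ee x y τ : R⟦X⟧) * ((q : R⟦X⟧) - (ee x y σ : R⟦X⟧)) := by
    rw [← ee_mul, Units.val_mul, Units.val_mul]
    noncomm_ring
  refine ⟨p * q, mul_mem hp hq, ?_, ?_, b1.mul b2⟩
  · rw [e]; exact (v1.mul_right _).add (v2.mul_left _)
  · rw [e, map_add, v1.coeff_mul_right, v2.coeff_mul_left, coeff_zero_of_mem (mem_GG_of_SS hq),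
      coeff_zero_of_mem (ee_mem_GG τ), mul_one, one_mul]

lemma Rep.dil {M : ℕ} {τ : ℝ} {z : R} {B : ℕ → ℝ} (h : Rep x y M τ z B) {t L : ℝ} (ht : 0 < t)
    (hL : t ≤ L) : Rep x y M (t * τ) (((t ^ M : ℝ) : ℂ) • z) (fun j => L ^ j * B j) := by
  obtain ⟨p, hp, v1, rfl, b1⟩ := h
  have e : ((dilU (t : ℂ) p : (R⟦X⟧)ˣ) : R⟦X⟧) - (ee x y (t * τ) : R⟦X⟧) =
      Split.dil (t : ℂ) ((p : R⟦X⟧) - (ee x y τ : R⟦X⟧)) := by
    rw [← dilU_ee, val_dilU, val_dilU, map_sub]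
  refine ⟨dilU (t : ℂ) p, dilU_mem_SS ht hp, ?_, ?_, ?_⟩
  · rw [e]
    intro j hj
    rw [coeff_dil, v1 j hj, smul_zero]
  · rw [e, coeff_dil, Complex.ofReal_pow]
  · intro j
    rw [val_dilU, coeff_dil, norm_smul, norm_pow, Complex.norm_real, Real.norm_eq_abs,
      abs_of_pos ht]
    exact mul_le_mul (pow_le_pow_left₀ ht.le hL j) (b1 j) (norm_nonneg _)
      (pow_nonneg (ht.le.trans hL) j)

lemma Rep.zero (M : ℕ) : Rep x y M 0 0 (fun j => ‖coeff j (1 : R⟦X⟧)‖) := by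
  refine ⟨1, one_mem _, ?_, ?_, bdd_self _⟩
  · rw [ee_zero, sub_self]; exact Van.zero _
  · rw [ee_zero, sub_self, map_zero]

lemma Rep.mem {k : ℕ} {τ : ℝ} {z : R} {B : ℕ → ℝ} (h : Rep x y (k + 1) τ z B) :
    z ∈ LieDeg x y k := by
  obtain ⟨p, hp, v1, rfl, -⟩ := h
  exact lead_mem₂ (mem_GG_of_SS hp) (ee_mem_GG τ) v1

lemma rep_sum {ι : Type*} (s : Finset ι) {M : ℕ} (E : ι → R)
    (hE : ∀ i, ∃ B, Rep x y M 1 (E i) B) :
    ∃ B, ∀ γ : ι → ℝ, (∀ i, 0 < γ i ∧ γ i ≤ 1) →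
      Rep x y M (∑ i ∈ s, γ i) (∑ i ∈ s, ((γ i ^ M : ℝ) : ℂ) • E i) B := by
  classical
  induction s using Finset.induction_on with
  | empty => exact ⟨_, fun γ _ => by simpa using Rep.zero M⟩
  | insert a s ha ih =>
    obtain ⟨B, hB⟩ := ih
    obtain ⟨B', hB'⟩ := hE a
    refine ⟨conv (fun j => 1 ^ j * B' j) B, fun γ hγ => ?_⟩
    rw [Finset.sum_insert ha, Finset.sum_insert ha]
    have := (hB'.dil (hγ a).1 (hγ a).2).add (hB γ hγ)
    rw [mul_one] at this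
    exact this

variable (x y) in
/-- The errors follow the line through `v` up to a bounded distance. -/
def Near (M : ℕ) (v : R) : Prop :=
  ∃ K : ℝ, ∀ t : ℝ, ∃ z B, Rep x y M 1 z B ∧ ‖z - (t : ℂ) • v‖ ≤ K

lemma Near.smul {M : ℕ} {v : R} (h : Near x y M v) (c : ℝ) : Near x y M ((c : ℂ) • v) := by
  obtain ⟨K, hK⟩ := h
  refine ⟨K, fun t => ?_⟩
  obtain ⟨z, B, h1, h2⟩ := hK (t * c)
  refine ⟨z, B, h1, ?_⟩
  rwa [smul_smul, ← Complex.ofReal_mul]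

lemma Near.add {M : ℕ} {v w : R} (hv : Near x y M v) (hw : Near x y M w) :
    Near x y M (v + w) := by
  obtain ⟨K, hK⟩ := hv
  obtain ⟨K', hK'⟩ := hw
  refine ⟨(1 / 2) ^ M * (K + K'), fun t => ?_⟩
  obtain ⟨z, B, h1, h2⟩ := hK (2 ^ M * t)
  obtain ⟨z', B', h1', h2'⟩ := hK' (2 ^ M * t)
  have h3 := (h1.dil (t := 1 / 2) (by norm_num) le_rfl).add
    (h1'.dil (t := 1 / 2) (by norm_num) le_rfl)
  rw [show (1 / 2 * 1 + 1 / 2 * 1 : ℝ) = 1 by norm_num] at h3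
  refine ⟨_, _, h3, ?_⟩
  have e : ((((1 / 2) ^ M : ℝ)) : ℂ) • z + (((1 / 2) ^ M : ℝ) : ℂ) • z' - (t : ℂ) • (v + w) =
      (((1 / 2) ^ M : ℝ) : ℂ) • ((z - ((2 ^ M * t : ℝ) : ℂ) • v) +
        (z' - ((2 ^ M * t : ℝ) : ℂ) • w)) := by
    have : (((1 / 2) ^ M : ℝ) : ℂ) * ((2 ^ M * t : ℝ) : ℂ) = t := by
      rw [← Complex.ofReal_mul, ← mul_assoc, ← mul_pow]
      norm_num
    rw [smul_add, smul_add, smul_sub, smul_sub, smul_smul, smul_smul, this]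
    abel
  rw [e, norm_smul, Complex.norm_real, Real.norm_eq_abs, abs_of_pos (by positivity)]
  gcongr
  exact (norm_add_le _ _).trans (add_le_add h2 h2')

lemma near_of_int {M : ℕ} {v : R} {K : ℝ}
    (h : ∀ m : ℤ, ∃ z B, Rep x y M 1 z B ∧ ‖z - m • v‖ ≤ K) : Near x y M v := by
  refine ⟨K + ‖v‖, fun t => ?_⟩
  obtain ⟨z, B, h1, h2⟩ := h ⌊t⌋
  refine ⟨z, B, h1, ?_⟩
  have e : z - (t : ℂ) • v = (z - ⌊t⌋ • v) - ((Int.fract t : ℝ) : ℂ) • v := by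
    rw [Int.fract, Complex.ofReal_sub, sub_smul, ← Int.cast_smul_eq_zsmul ℂ]
    simp
  rw [e]
  refine (norm_sub_le _ _).trans (add_le_add h2 ?_)
  rw [norm_smul, Complex.norm_real, Real.norm_eq_abs, abs_of_nonneg (Int.fract_nonneg t)]
  have := Int.fract_lt_one t
  nlinarith [norm_nonneg v, Int.fract_nonneg t]

/-- All errors of bounded size are reached with bounded coefficients. -/
lemma cover {k : ℕ} (h : ∀ v ∈ LieDeg x y k, Near x y (k + 1) v) (τ : ℝ) (hτ : 0 < τ) (R0 : ℝ) :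
    ∃ B, ∀ z ∈ LieDeg x y k, ‖z‖ ≤ R0 → Rep x y (k + 1) τ z B := by
  have : FiniteDimensional ℂ (LieDeg x y k) := Module.Finite.iff_fg.2 (LieDeg_fg x y k)
  have hM : k + 1 ≠ 0 := Nat.succ_ne_zero k
  obtain ⟨r, hr⟩ := lin_cover (W := LieDeg x y k) {z | ∃ B, Rep x y (k + 1) 1 (z : R) B} (by
    intro v
    obtain ⟨K, hK⟩ := h v v.2
    refine ⟨K, fun t => ?_⟩
    obtain ⟨z, B, h1, h2⟩ := hK t
    refine ⟨⟨z, h1.mem⟩, ⟨B, h1⟩, ?_⟩
    rw [Submodule.coe_norm, ← Complex.coe_smul]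
    exact h2)
  have step1 : ∀ R1 : ℝ, ∃ B, ∀ z ∈ LieDeg x y k, ‖z‖ ≤ R1 →
      ∃ σ : ℝ, 0 ≤ σ ∧ σ < 1 ∧ Rep x y (k + 1) σ z B := by
    intro R1
    set g0 : ℝ := 1 / (2 * r + 2) with hg0
    have hg0p : 0 < g0 := by positivity
    have hg01 : g0 ≤ 1 := by
      rw [hg0, div_le_one (by positivity)]
      have : (0 : ℝ) ≤ r := Nat.cast_nonneg r
      linarith
    have hgp : 0 < g0 ^ (k + 1) := by positivity
    obtain ⟨Ep, Em, hEp, hEm, hE⟩ := hr R1 (g0 ^ (k + 1) / 2) (by positivity)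
    obtain ⟨Bp, hBp⟩ := rep_sum (x := x) (y := y) univ (fun i => (Ep i : R)) hEp
    obtain ⟨Bm, hBm⟩ := rep_sum (x := x) (y := y) univ (fun i => (Em i : R)) hEm
    refine ⟨conv Bp Bm, fun z hz hzn => ?_⟩
    obtain ⟨c, hc, hsum⟩ := hE ⟨z, hz⟩ hzn
    have hc' : ∀ i, ∃ γ : ℝ, 0 < γ ∧ γ ≤ g0 ∧ γ ^ (k + 1) = c i := fun i =>
      exists_root hM (hc i).1 hg0p (by linarith [(hc i).2])
    choose γ hγ0 hγ1 hγ2 using hc'
    obtain ⟨δ, hδ0, hδ1, hδ2⟩ := exists_root hM (half_pos hgp) hg0p (by linarith)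
    have h1 := (hBp γ fun i => ⟨hγ0 i, (hγ1 i).trans hg01⟩).add
      (hBm (fun _ => δ) fun _ => ⟨hδ0, hδ1.trans hg01⟩)
    have e : ∑ i, ((γ i ^ (k + 1) : ℝ) : ℂ) • (Ep i : R) +
        ∑ i, ((δ ^ (k + 1) : ℝ) : ℂ) • (Em i : R) = z := by
      have := congrArg Subtype.val hsum
      simp only [Submodule.coe_add, Submodule.coe_sum, ← Complex.coe_smul,
        Submodule.coe_smul] at this
      simp only [hγ2, hδ2]
      exact this
    rw [e] at h1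
    refine ⟨_, ?_, ?_, h1⟩
    · exact add_nonneg (Finset.sum_nonneg fun i _ => (hγ0 i).le)
        (Finset.sum_nonneg fun i _ => hδ0.le)
    · have h2 : ∑ i, γ i ≤ r * g0 := by
        have := Finset.sum_le_card_nsmul univ γ g0 fun i _ => hγ1 i
        simpa using this
      have h3 : ∑ _i : Fin r, δ ≤ r * g0 := by
        have := Finset.sum_le_card_nsmul (univ : Finset (Fin r)) (fun _ => δ) g0 fun i _ => hδ1
        simpa using this
      have h4 : 2 * (r * g0) < 1 := by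
        rw [hg0, ← mul_assoc, mul_one_div, div_lt_one (by positivity)]
        linarith
      linarith
  have step2 : ∃ B, Rep x y (k + 1) 1 0 B := by
    obtain ⟨K, hK⟩ := h 0 (zero_mem _)
    obtain ⟨z, B, h1, -⟩ := hK 0
    obtain ⟨B', hB'⟩ := step1 ‖z‖
    obtain ⟨σ, hσ0, -, h2⟩ := hB' (-z) (neg_mem h1.mem) (by rw [norm_neg])
    have h3 := (h1.add h2).dil (t := (1 + σ)⁻¹) (by positivity) le_rfl
    rw [add_neg_cancel, smul_zero, inv_mul_cancel₀ (by positivity)] at h3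
    exact ⟨_, h3⟩
  obtain ⟨B0, hB0⟩ := step2
  obtain ⟨B1, hB1⟩ := step1 ((τ ^ (k + 1))⁻¹ * R0)
  refine ⟨fun j => τ ^ j * conv B1 (fun j => 1 ^ j * B0 j) j, fun z hz hzn => ?_⟩
  · have hτM : 0 < τ ^ (k + 1) := by positivity
    obtain ⟨σ, hσ0, hσ1, h2⟩ := hB1 ((((τ ^ (k + 1))⁻¹ : ℝ) : ℂ) • z) (Submodule.smul_mem _ _ hz) (by
      rw [norm_smul, Complex.norm_real, Real.norm_eq_abs, abs_of_pos (inv_pos.2 hτM)]
      gcongr)
    have h3 := (h2.add (hB0.dil (t := 1 - σ) (L := 1) (by linarith) (by linarith))).dil hτ le_rfl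
    rw [smul_zero, add_zero, mul_one, add_sub_cancel, mul_one, smul_smul, ← Complex.ofReal_mul,
      mul_inv_cancel₀ hτM.ne', Complex.ofReal_one, one_smul] at h3
    exact h3

end Normed

end Pool.Agent.H25Z.Split
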